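import Pool.Agent.TH552.CC.Ulam

/-!
# Small perturbations of abelian groups of unitaries into a von Neumann algebra are inner
-/

set_option autoImplicit false
set_option linter.unusedSectionVars false

open scoped InnerProductSpace ComplexConjugate
open Filter Topology

namespace Pool.Agent.TH552.CC

variable {H : Type*} [NormedAddCommGroup H] [InnerProductSpace ℂ H] [CompleteSpace H]

/-- an operator with `V* V` near one has a polar decomposition with unitary part when it is near one -/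
theorem polar_near {V : H →L[ℂ] H} {c : ℝ} (hV : ‖V - 1‖ ≤ c) (hc : c ≤ 1 / 10) :
    ∃ W : H →L[ℂ] H, star W * W = 1 ∧ W * star W = 1 ∧ ‖W - 1‖ ≤ 4 * c ∧
      ∃ R : H →L[ℂ] H, W = V * R ∧
        ∀ x : H →L[ℂ] H, x * (star V * V) = (star V * V) * x → x * R = R * x := by
  have hc0 : 0 ≤ c := (norm_nonneg _).trans hV
  have hVn : ‖V‖ ≤ 1 + c := by
    calc ‖V‖ = ‖(V - 1) + 1‖ := by rw [sub_add_cancel]
      _ ≤ c + 1 := (norm_add_le _ _).trans (add_le_add hV norm_one_le')
      _ = 1 + c := by ring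
  have hS : ‖star V * V - 1‖ ≤ 21 / 10 * c := by
    have e : star V * V - 1 = star (V - 1) * V + (V - 1) := by
      rw [star_sub, star_one]
      noncomm_ring
    rw [e]
    calc _ ≤ ‖star (V - 1)‖ * ‖V‖ + ‖V - 1‖ :=
          (norm_add_le _ _).trans (add_le_add (norm_mul_le _ _) le_rfl)
      _ ≤ c * (1 + c) + c := by
        refine add_le_add (mul_le_mul ?_ hVn (norm_nonneg _) hc0) hV
        rw [norm_star]; exact hV
      _ ≤ 21 / 10 * c := by nlinarith
  have hsa : star (star V * V) = star V * V := by rw [star_mul, star_star]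
  obtain ⟨R, hR1, hR2, hR3, hR4, hR5⟩ := exists_isqrt hsa hS (by linarith)
  have hRV : R * (star V * V) * R = 1 := by
    rw [mul_assoc, hR3, ← mul_assoc]
    exact hR2
  have hWW : star (V * R) * (V * R) = 1 := by
    rw [star_mul, hR1]
    calc R * star V * (V * R) = R * (star V * V) * R := by noncomm_ring
      _ = 1 := hRV
  have hWn : ‖V * R - 1‖ ≤ 4 * c := by
    have e : V * R - 1 = V * (R - 1) + (V - 1) := by noncomm_ring
    rw [e]
    calc _ ≤ ‖V‖ * ‖R - 1‖ + ‖V - 1‖ :=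
          (norm_add_le _ _).trans (add_le_add (norm_mul_le _ _) le_rfl)
      _ ≤ (1 + c) * (21 / 10 * c) + c :=
        add_le_add (mul_le_mul hVn hR4 (norm_nonneg _) (by linarith)) hV
      _ ≤ 4 * c := by nlinarith
  have hunit : IsUnit (V * R) := by
    have h1 : ‖1 - V * R‖ < 1 := by
      rw [norm_sub_rev]
      linarith
    have := isUnit_one_sub_of_norm_lt_one h1
    rwa [sub_sub_cancel] at this
  have hWW' : (V * R) * star (V * R) = 1 := by
    obtain ⟨w, hw⟩ := hunit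
    have h1 : star (V * R) = (↑w⁻¹ : H →L[ℂ] H) := by
      calc star (V * R) = star (V * R) * ((↑w : H →L[ℂ] H) * (↑w⁻¹ : H →L[ℂ] H)) := by
            rw [w.mul_inv, mul_one]
        _ = (star (V * R) * (V * R)) * (↑w⁻¹ : H →L[ℂ] H) := by rw [hw]; noncomm_ring
        _ = _ := by rw [hWW, one_mul]
    rw [h1, ← hw]
    exact w.mul_inv
  exact ⟨V * R, hWW, hWW', hWn, R, rfl, hR5⟩

section cj

variable {G : Type*} [CommGroup G]

/-- A representation of an abelian group by unitaries which are close to a von Neumann algebra is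
conjugate to one inside it, by a unitary close to one. -/
theorem conj_into (μ : CMean G) (N : VonNeumannAlgebra H) (u : G →* unitary (H →L[ℂ] H)) {ε : ℝ}
    (hε : 0 ≤ ε) (hε1 : ε ≤ 1 / 1000) (hN : ∀ g, ∃ y ∈ N, ‖y - (u g : H →L[ℂ] H)‖ ≤ ε) :
    ∃ W : H →L[ℂ] H, star W * W = 1 ∧ W * star W = 1 ∧ ‖W - 1‖ ≤ 300 * ε ∧
      (∀ g, W * u g * star W ∈ N) ∧
      ∀ x : H →L[ℂ] H, (∀ g, x * u g = u g * x) → (∀ y ∈ N, x * y = y * x) → x * W = W * x := by
  have hu1 : ∀ g, star (u g : H →L[ℂ] H) * (u g : H →L[ℂ] H) = 1 := fun g => (u g).2.1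
  have hu2 : ∀ g, (u g : H →L[ℂ] H) * star (u g : H →L[ℂ] H) = 1 := fun g => (u g).2.2
  have hun : ∀ g, ‖(u g : H →L[ℂ] H)‖ ≤ 1 := fun g => norm_le_one_of_isometry (hu1 g)
  have humul : ∀ a b, (u (a * b) : H →L[ℂ] H) = (u a : H →L[ℂ] H) * (u b : H →L[ℂ] H) := by
    intro a b
    rw [map_mul]; rfl
  have huinv : ∀ a, (u a⁻¹ : H →L[ℂ] H) = star (u a : H →L[ℂ] H) := by
    intro a
    calc (u a⁻¹ : H →L[ℂ] H) = (u a⁻¹ : H →L[ℂ] H) * ((u a : H →L[ℂ] H) * star (u a : H →L[ℂ] H)) := by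
          rw [hu2, mul_one]
      _ = (u (a⁻¹ * a) : H →L[ℂ] H) * star (u a : H →L[ℂ] H) := by rw [humul]; noncomm_ring
      _ = star (u a : H →L[ℂ] H) := by
        rw [inv_mul_cancel, map_one]
        exact one_mul _
  obtain ⟨ρ, hρN, hρu, hρm⟩ := ulam μ N u hε (by linarith) hN
  have hρn : ∀ g, ‖ρ g‖ ≤ 101 / 100 := by
    intro g
    calc ‖ρ g‖ = ‖(ρ g - u g) + (u g : H →L[ℂ] H)‖ := by rw [sub_add_cancel]
      _ ≤ 7 * ε + 1 := (norm_add_le _ _).trans (add_le_add (hρu g) (hun g))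
      _ ≤ 101 / 100 := by linarith
  have hρ1 : ρ 1 = 1 := by
    obtain ⟨z, hz1, hz2, -⟩ := exists_inv (hu1 1) (hu2 1) (hρu 1) (by linarith)
    calc ρ 1 = z * ρ 1 * ρ 1 := by rw [hz1, one_mul]
      _ = z * (ρ 1 * ρ 1) := by rw [mul_assoc]
      _ = z * ρ 1 := by rw [hρm, mul_one]
      _ = 1 := hz1
  -- the invariant form
  have hb1 : BdO (fun g => star (ρ g) * ρ g) := by
    refine ⟨101 / 100 * (101 / 100), fun g => (norm_mul_le _ _).trans ?_⟩
    rw [norm_star]
    exact mul_le_mul (hρn g) (hρn g) (norm_nonneg _) (by norm_num)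
  obtain ⟨S, hSdef⟩ : ∃ S, S = om μ (fun g => star (ρ g) * ρ g) := ⟨_, rfl⟩
  have hSs : star S = S := by
    rw [hSdef, ← om_star μ hb1]
    congr 1
    funext g
    rw [star_mul, star_star]
  have hSN : S ∈ N := by
    rw [hSdef]
    exact om_mem μ N hb1 fun g => mul_mem (star_mem (hρN g)) (hρN g)
  have hSn : ‖S - 1‖ ≤ 15 * ε := by
    rw [hSdef]
    refine om_near μ hb1 fun g => ?_
    have e : star (ρ g) * ρ g - 1 = star (ρ g - u g) * ρ g + star (u g : H →L[ℂ] H) * (ρ g - u g) := by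
      rw [star_sub, ← hu1 g]
      noncomm_ring
    rw [e]
    calc _ ≤ ‖star (ρ g - u g)‖ * ‖ρ g‖ + ‖star (u g : H →L[ℂ] H)‖ * ‖ρ g - u g‖ :=
          (norm_add_le _ _).trans (add_le_add (norm_mul_le _ _) (norm_mul_le _ _))
      _ ≤ 7 * ε * (101 / 100) + 1 * (7 * ε) := by
        rw [norm_star, norm_star]
        exact add_le_add (mul_le_mul (hρu g) (hρn g) (norm_nonneg _) (by positivity))
          (mul_le_mul (hun g) (hρu g) (norm_nonneg _) (by norm_num))
      _ ≤ 15 * ε := by linarith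
  have hSinv : ∀ a, star (ρ a) * S * ρ a = S := by
    intro a
    rw [hSdef]
    have h1 := om_inv μ hb1 a
    rw [← om_mul_left μ hb1, ← om_mul_right μ (hb1.mul_left _)]
    conv_rhs => rw [← h1]
    congr 1
    funext g
    have : ρ (a * g) = ρ g * ρ a := by rw [hρm, mul_comm]
    rw [this, star_mul]
    noncomm_ring
  obtain ⟨R, hR1, hR2, hR3, hR4, hR5⟩ := exists_isqrt hSs hSn (by linarith)
  have hRN : R ∈ N := by
    rw [mem_vn_iff]
    intro x hx
    exact hR5 x ((mem_vn_iff N S).1 hSN x hx)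
  have hRn : ‖R‖ ≤ 102 / 100 := by
    calc ‖R‖ = ‖(R - 1) + 1‖ := by rw [sub_add_cancel]
      _ ≤ 15 * ε + 1 := (norm_add_le _ _).trans (add_le_add hR4 norm_one_le')
      _ ≤ 102 / 100 := by linarith
  -- `Q = S ^ (1/2)`
  obtain ⟨Q, hQdef⟩ : ∃ Q, Q = S * R := ⟨_, rfl⟩
  have hQN : Q ∈ N := by rw [hQdef]; exact mul_mem hSN hRN
  have hQs : star Q = Q := by rw [hQdef, star_mul, hR1, hSs, hR3]
  have hRQ : R * Q = 1 := by
    rw [hQdef, hR3, ← mul_assoc]
    exact hR2
  have hQR : Q * R = 1 := by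
    rw [hQdef, hR3, mul_assoc, hR3, ← mul_assoc]
    exact hR2
  have hQQ : Q * Q = S := by
    calc Q * Q = S * (R * Q) := by nth_rewrite 1 [hQdef]; rw [mul_assoc]
      _ = S := by rw [hRQ, mul_one]
  have hQn : ‖Q - 1‖ ≤ 31 * ε := by
    have e : Q - 1 = (S - 1) * R + (R - 1) := by
      rw [hQdef]
      noncomm_ring
    rw [e]
    calc _ ≤ ‖S - 1‖ * ‖R‖ + ‖R - 1‖ :=
          (norm_add_le _ _).trans (add_le_add (norm_mul_le _ _) le_rfl)
      _ ≤ 15 * ε * (102 / 100) + 15 * ε :=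
        add_le_add (mul_le_mul hSn hRn (norm_nonneg _) (by positivity)) hR4
      _ ≤ 31 * ε := by linarith
  obtain ⟨π, hπdef⟩ : ∃ π : G → H →L[ℂ] H, ∀ g, π g = Q * ρ g * R := ⟨fun g => Q * ρ g * R, fun _ => rfl⟩
  have hπN : ∀ g, π g ∈ N := fun g => by
    rw [hπdef]
    exact mul_mem (mul_mem hQN (hρN g)) hRN
  have hπm : ∀ a b, π a * π b = π (a * b) := by
    intro a b
    rw [hπdef, hπdef, hπdef, ← hρm]
    calc Q * ρ a * R * (Q * ρ b * R) = Q * ρ a * (R * Q) * ρ b * R := by noncomm_ring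
      _ = _ := by rw [hRQ]; noncomm_ring
  have hπ1 : π 1 = 1 := by rw [hπdef, hρ1, mul_one, hQR]
  have hπs : ∀ g, star (π g) * π g = 1 := by
    intro g
    rw [hπdef, star_mul, star_mul, hR1, hQs]
    calc R * (star (ρ g) * Q) * (Q * ρ g * R) = R * (star (ρ g) * (Q * Q) * ρ g) * R := by
          noncomm_ring
      _ = R * S * R := by rw [hQQ, hSinv]
      _ = 1 := by rw [mul_assoc, hR3, ← mul_assoc, hR2]
  have hπinv : ∀ g, star (π g) = π g⁻¹ := by
    intro g
    calc star (π g) = star (π g) * (π g * π g⁻¹) := by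
          rw [hπm, mul_inv_cancel, hπ1, mul_one]
      _ = (star (π g) * π g) * π g⁻¹ := by noncomm_ring
      _ = π g⁻¹ := by rw [hπs, one_mul]
  have hπn : ∀ g, ‖π g‖ ≤ 1 := fun g => norm_le_one_of_isometry (hπs g)
  have hπu : ∀ g, ‖π g - u g‖ ≤ 60 * ε := by
    intro g
    have e : π g - u g = (Q - 1) * ρ g * R + ρ g * (R - 1) + (ρ g - u g) := by
      rw [hπdef]
      noncomm_ring
    rw [e]
    calc _ ≤ ‖(Q - 1) * ρ g * R‖ + ‖ρ g * (R - 1)‖ + ‖ρ g - u g‖ :=
          (norm_add_le _ _).trans (add_le_add (norm_add_le _ _) le_rfl)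
      _ ≤ (31 * ε) * (101 / 100) * (102 / 100) + 101 / 100 * (15 * ε) + 7 * ε := by
        refine add_le_add (add_le_add ?_ ?_) (hρu g)
        · refine (norm_mul_le _ _).trans (mul_le_mul ?_ hRn (norm_nonneg _) (by positivity))
          exact (norm_mul_le _ _).trans (mul_le_mul hQn (hρn g) (norm_nonneg _) (by positivity))
        · exact (norm_mul_le _ _).trans (mul_le_mul (hρn g) hR4 (norm_nonneg _) (by norm_num))
      _ ≤ 60 * ε := by linarith
  -- the intertwiner
  have hb2 : BdO (fun g => π g * star (u g : H →L[ℂ] H)) := by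
    refine ⟨1 * 1, fun g => (norm_mul_le _ _).trans ?_⟩
    rw [norm_star]
    exact mul_le_mul (hπn g) (hun g) (norm_nonneg _) (by norm_num)
  obtain ⟨V, hVdef⟩ : ∃ V, V = om μ (fun g => π g * star (u g : H →L[ℂ] H)) := ⟨_, rfl⟩
  have hVint : ∀ a, V * u a = π a * V := by
    intro a
    rw [hVdef, ← om_mul_right μ hb2, ← om_mul_left μ hb2,
      ← om_inv μ (hb2.mul_right (u a : H →L[ℂ] H)) a]
    congr 1
    funext g
    rw [humul, star_mul, ← hπm]
    have h1 : (u a : H →L[ℂ] H) * (u g : H →L[ℂ] H) = (u g : H →L[ℂ] H) * (u a : H →L[ℂ] H) := by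
      rw [← humul, ← humul, mul_comm]
    calc π a * π g * (star (u g : H →L[ℂ] H) * star (u a : H →L[ℂ] H)) * (u a : H →L[ℂ] H) =
          π a * π g * star (u g : H →L[ℂ] H) * (star (u a : H →L[ℂ] H) * (u a : H →L[ℂ] H)) := by
          noncomm_ring
      _ = π a * (π g * star (u g : H →L[ℂ] H)) := by rw [hu1, mul_one, mul_assoc]
  have hVn : ‖V - 1‖ ≤ 60 * ε := by
    rw [hVdef]
    refine om_near μ hb2 fun g => ?_
    have e : π g * star (u g : H →L[ℂ] H) - 1 = (π g - u g) * star (u g : H →L[ℂ] H) := by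
      rw [sub_mul, hu2]
    rw [e]
    calc _ ≤ ‖π g - u g‖ * ‖star (u g : H →L[ℂ] H)‖ := norm_mul_le _ _
      _ ≤ 60 * ε * 1 := by
        rw [norm_star]
        exact mul_le_mul (hπu g) (hun g) (norm_nonneg _) (by positivity)
      _ = 60 * ε := mul_one _
  obtain ⟨W, hW1, hW2, hW3, R', hW4, hW5⟩ := polar_near hVn (by linarith)
  have hVVu : ∀ a, (u a : H →L[ℂ] H) * (star V * V) = (star V * V) * u a := by
    intro a
    have h1 : star V * π a = u a * star V := by
      have h2 := congrArg star (hVint a⁻¹)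
      rw [star_mul, star_mul, huinv, star_star, ← hπinv, star_star] at h2
      exact h2.symm
    calc (u a : H →L[ℂ] H) * (star V * V) = (u a * star V) * V := by rw [mul_assoc]
      _ = star V * (π a * V) := by rw [← h1, mul_assoc]
      _ = star V * V * u a := by rw [← hVint, mul_assoc]
  refine ⟨W, hW1, hW2, by linarith, fun g => ?_, fun x hxu hxN => ?_⟩
  · have h1 : W * u g = π g * W := by
      calc W * u g = V * (R' * u g) := by rw [hW4, mul_assoc]
        _ = V * (u g * R') := by rw [hW5 _ (hVVu g)]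
        _ = (V * u g) * R' := by rw [mul_assoc]
        _ = π g * W := by rw [hVint, hW4, mul_assoc]
    rw [h1, mul_assoc, hW2, mul_one]
    exact hπN g
  · have hxus : ∀ g, x * star (u g : H →L[ℂ] H) = star (u g : H →L[ℂ] H) * x := by
      intro g
      rw [← huinv]
      exact hxu _
    have hxV : x * V = V * x := by
      rw [hVdef]
      refine om_comm μ hb2 fun g => ?_
      rw [← mul_assoc, hxN _ (hπN g), mul_assoc, hxus, ← mul_assoc]
    have hVs : star V = om μ (fun g => star (π g * star (u g : H →L[ℂ] H))) := by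
      rw [hVdef, om_star μ hb2]
    have hb3 : BdO (fun g => star (π g * star (u g : H →L[ℂ] H))) := by
      obtain ⟨C, hC⟩ := hb2
      exact ⟨C, fun g => by rw [norm_star]; exact hC g⟩
    have hxVs : x * star V = star V * x := by
      rw [hVs]
      refine om_comm μ hb3 fun g => ?_
      rw [star_mul, star_star, ← mul_assoc, hxu, mul_assoc, hxN _ (star_mem (hπN g)), ← mul_assoc]
    have hxR : x * R' = R' * x := by
      refine hW5 x ?_
      rw [← mul_assoc, hxVs, mul_assoc, hxV, ← mul_assoc]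
    rw [hW4, ← mul_assoc, hxV, mul_assoc, hxR, ← mul_assoc]

end cj

end Pool.Agent.TH552.CC
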