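import Pool.Agent.TH552.CC.VN
import Pool.Agent.H759R2.Kad.Inner

/-!
# Near von Neumann algebras have near commutants
-/

set_option autoImplicit false
set_option linter.unusedSectionVars false
set_option linter.style.haveILetI false

open scoped InnerProductSpace ComplexConjugate
open Filter Topology
open Pool.Agent.Helper278

namespace Pool.Agent.TH552.CC

universe u

variable {H : Type u} [NormedAddCommGroup H] [InnerProductSpace ℂ H] [CompleteSpace H]

/-- the constant of the derivation theorem -/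
noncomputable def K0 : ℝ := 5184 * 6 ^ 25 * 8 ^ 77

theorem near_commutant {M N : VonNeumannAlgebra H} {ε : ℝ} (h : Near M N ε) (hε : 0 ≤ ε) :
    Near N.commutant M.commutant (K0 * (2 * ε)) := by
  intro T hT hT1
  haveI hcl : IsClosed (M.toStarSubalgebra : Set (H →L[ℂ] H)) := isClosed_vn M
  letI : CStarAlgebra M.toStarSubalgebra := StarSubalgebra.cstarAlgebra M.toStarSubalgebra
  let π : M.toStarSubalgebra →⋆ₙₐ[ℂ] (H →L[ℂ] H) :=
    (M.toStarSubalgebra.subtype : M.toStarSubalgebra →⋆ₐ[ℂ] (H →L[ℂ] H))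
  let δ0 : M.toStarSubalgebra →ₗ[ℂ] (H →L[ℂ] H) :=
    { toFun := fun x => (x : H →L[ℂ] H) * T - T * (x : H →L[ℂ] H)
      map_add' := fun a b => by
        show ((a : H →L[ℂ] H) + (b : H →L[ℂ] H)) * T - T * ((a : H →L[ℂ] H) + (b : H →L[ℂ] H)) = _
        noncomm_ring
      map_smul' := fun c a => by
        show (c • (a : H →L[ℂ] H)) * T - T * (c • (a : H →L[ℂ] H)) = _
        rw [smul_mul_assoc, mul_smul_comm, ← smul_sub]
        rfl }
  have hbd : ∀ x : M.toStarSubalgebra, ‖δ0 x‖ ≤ (2 * ε) * ‖x‖ := by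
    intro x
    obtain ⟨y, hy, hyx⟩ := h.scaled (x := (x : H →L[ℂ] H)) x.2
    have h1 : y * T = T * y := mem_comm_iff.1 hT y hy
    have e : (x : H →L[ℂ] H) * T - T * (x : H →L[ℂ] H) = T * (y - x) - (y - x) * T := by
      rw [mul_sub, sub_mul, h1]
      abel
    show ‖(x : H →L[ℂ] H) * T - T * (x : H →L[ℂ] H)‖ ≤ _
    rw [e]
    have hx : ‖(x : H →L[ℂ] H)‖ = ‖x‖ := rfl
    calc _ ≤ ‖T‖ * ‖y - x‖ + ‖y - x‖ * ‖T‖ :=
          (norm_sub_le _ _).trans (add_le_add (norm_mul_le _ _) (norm_mul_le _ _))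
      _ ≤ 1 * (ε * ‖x‖) + (ε * ‖x‖) * 1 := by
        rw [hx] at hyx
        exact add_le_add (mul_le_mul hT1 hyx (norm_nonneg _) zero_le_one)
          (mul_le_mul hyx hT1 (norm_nonneg _) (by positivity))
      _ = (2 * ε) * ‖x‖ := by ring
  let δ : M.toStarSubalgebra →L[ℂ] (H →L[ℂ] H) := δ0.mkContinuous (2 * ε) hbd
  have hδn : ‖δ‖ ≤ 2 * ε := LinearMap.mkContinuous_norm_le _ (by positivity) _
  have hδ : ∀ a b : M.toStarSubalgebra, δ (a * b) = π a * δ b + δ a * π b := by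
    intro a b
    show ((a : H →L[ℂ] H) * (b : H →L[ℂ] H)) * T - T * ((a : H →L[ℂ] H) * (b : H →L[ℂ] H)) =
      (a : H →L[ℂ] H) * ((b : H →L[ℂ] H) * T - T * (b : H →L[ℂ] H)) +
        ((a : H →L[ℂ] H) * T - T * (a : H →L[ℂ] H)) * (b : H →L[ℂ] H)
    noncomm_ring
  obtain ⟨S, hS1, hS2⟩ := H759R2.Kad.inner_bound M.toStarSubalgebra H π δ hδ
  refine ⟨T - S, ?_, ?_⟩
  · rw [mem_comm_iff]
    intro x hx
    have h3 : x * T - T * x = x * S - S * x := hS2 ⟨x, hx⟩
    rw [mul_sub, sub_mul]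
    have : x * T - x * S - (T * x - S * x) = (x * T - T * x) - (x * S - S * x) := by abel
    rw [← sub_eq_zero, this, h3, sub_self]
  · have e : T - S - T = -S := by abel
    rw [e, norm_neg]
    refine hS1.trans ?_
    show 5184 * 6 ^ 25 * 8 ^ 77 * ‖δ‖ ≤ 5184 * 6 ^ 25 * 8 ^ 77 * (2 * ε)
    exact mul_le_mul_of_nonneg_left hδn (by positivity)

end Pool.Agent.TH552.CC
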