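import Pool.Agent.TH552.CC.Mean

/-!
# Inverse square roots of operators near one, polar decomposition
-/

set_option autoImplicit false
set_option linter.unusedSectionVars false

open scoped InnerProductSpace ComplexConjugate

namespace Pool.Agent.TH552.CC

variable {H : Type*} [NormedAddCommGroup H] [InnerProductSpace ℂ H] [CompleteSpace H]

theorem norm_one_le' : ‖(1 : H →L[ℂ] H)‖ ≤ 1 := ContinuousLinearMap.norm_id_le

theorem spec_near {S : H →L[ℂ] H} {c : ℝ} (hc : ‖S - 1‖ ≤ c) {t : ℝ} (ht : t ∈ spectrum ℝ S) :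
    |t - 1| ≤ c := by
  have h1 : t - 1 ∈ spectrum ℝ (S - 1) := by
    rw [spectrum.mem_iff] at ht ⊢
    have : (algebraMap ℝ (H →L[ℂ] H)) (t - 1) - (S - 1) = (algebraMap ℝ (H →L[ℂ] H)) t - S := by
      rw [map_sub, map_one]
      abel
    rwa [this]
  have h2 := spectrum.norm_le_norm_mul_of_mem h1
  rw [Real.norm_eq_abs] at h2
  refine h2.trans ?_
  calc ‖S - 1‖ * ‖(1 : H →L[ℂ] H)‖ ≤ ‖S - 1‖ * 1 :=
        mul_le_mul_of_nonneg_left norm_one_le' (norm_nonneg _)
    _ ≤ c := by rw [mul_one]; exact hc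

theorem rsqrt_bound {c t : ℝ} (hc : c ≤ 1 / 2) (ht : |t - 1| ≤ c) : |(√t)⁻¹ - 1| ≤ c := by
  rw [abs_le] at ht
  have hc0 : 0 ≤ c := by linarith
  have ht0 : 1 / 2 ≤ t := by linarith
  set s := √t with hs
  have hs0 : 0 < s := Real.sqrt_pos.2 (by linarith)
  have hss : s * s = t := Real.mul_self_sqrt (by linarith)
  rw [abs_le]
  constructor
  · -- 1 - c ≤ 1/s
    have : (1 - c) * s ≤ 1 := by
      have h1 : s ≤ 1 + c := by
        by_contra h
        push Not at h
        nlinarith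
      nlinarith
    have h2 : (1 - c) ≤ s⁻¹ := by
      rw [← one_div, le_div_iff₀ hs0]
      exact this
    linarith
  · have : 1 ≤ (1 + c) * s := by
      by_contra h
      push Not at h
      have h1 : 0 < (1 + c) * s := by positivity
      have h2 : ((1 + c) * s) * ((1 + c) * s) < 1 := by nlinarith
      have h3 : ((1 + c) * s) * ((1 + c) * s) = (1 + c) * (1 + c) * t := by rw [← hss]; ring
      rw [h3] at h2
      have h4 : (1 + c) * (1 + c) * (1 - c) ≤ (1 + c) * (1 + c) * t :=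
        mul_le_mul_of_nonneg_left (by linarith) (by positivity)
      have h5 : 0 ≤ c * (1 - c - c * c) := mul_nonneg hc0 (by nlinarith)
      nlinarith
    have h2 : s⁻¹ ≤ 1 + c := by
      rw [inv_le_iff_one_le_mul₀ hs0]
      linarith
    linarith

/-- the inverse square root of a self-adjoint operator near one -/
theorem exists_isqrt {S : H →L[ℂ] H} (hs : star S = S) {c : ℝ} (hc : ‖S - 1‖ ≤ c)
    (hc1 : c ≤ 1 / 2) :
    ∃ R : H →L[ℂ] H, star R = R ∧ R * R * S = 1 ∧ S * R = R * S ∧ ‖R - 1‖ ≤ c ∧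
      ∀ x : H →L[ℂ] H, x * S = S * x → x * R = R * x := by
  have hsa : IsSelfAdjoint S := hs
  have hc0 : 0 ≤ c := (norm_nonneg _).trans hc
  have hpos : ∀ t ∈ spectrum ℝ S, 0 < t := fun t ht => by
    have := abs_le.1 (spec_near hc ht)
    linarith
  have hcont : ContinuousOn (fun t : ℝ => (√t)⁻¹) (spectrum ℝ S) := by
    refine ContinuousOn.inv₀ Real.continuous_sqrt.continuousOn fun t ht => ?_
    exact (Real.sqrt_pos.2 (hpos t ht)).ne'
  have hcomm : ∀ x : H →L[ℂ] H, x * S = S * x → x * cfc (fun t : ℝ => (√t)⁻¹) S =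
      cfc (fun t : ℝ => (√t)⁻¹) S * x := by
    intro x hx
    have h1 : Commute S x := hx.symm
    exact (h1.cfc_real (fun t : ℝ => (√t)⁻¹)).symm
  refine ⟨cfc (fun t : ℝ => (√t)⁻¹) S, ?_, ?_, ?_, ?_, hcomm⟩
  · exact (cfc_predicate (R := ℝ) (p := IsSelfAdjoint) _ S).star_eq
  · have h1 : cfc (fun t : ℝ => (√t)⁻¹) S * cfc (fun t : ℝ => (√t)⁻¹) S =
        cfc (fun t : ℝ => (√t)⁻¹ * (√t)⁻¹) S := (cfc_mul _ _ S hcont hcont).symm
    have h2 : cfc (fun t : ℝ => (√t)⁻¹ * (√t)⁻¹) S * S =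
        cfc (fun t : ℝ => (√t)⁻¹ * (√t)⁻¹ * t) S := by
      have := cfc_mul (fun t : ℝ => (√t)⁻¹ * (√t)⁻¹) (fun t : ℝ => t) S (hcont.mul hcont)
        continuousOn_id
      rw [cfc_id' ℝ S hsa] at this
      exact this.symm
    rw [h1, h2]
    have h3 : cfc (fun t : ℝ => (√t)⁻¹ * (√t)⁻¹ * t) S = cfc (fun _ : ℝ => (1 : ℝ)) S := by
      refine cfc_congr fun t ht => ?_
      have h4 := hpos t ht
      have h5 : √t * √t = t := Real.mul_self_sqrt h4.le
      have h6 : √t ≠ 0 := (Real.sqrt_pos.2 h4).ne'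
      show (√t)⁻¹ * (√t)⁻¹ * t = 1
      nth_rewrite 3 [← h5]
      field_simp
    rw [h3, cfc_const_one ℝ S]
  · exact hcomm S rfl
  · have h1 : cfc (fun t : ℝ => (√t)⁻¹) S - 1 = cfc (fun t : ℝ => (√t)⁻¹ - 1) S := by
      rw [cfc_sub _ _ S hcont continuousOn_const, cfc_const_one ℝ S]
    rw [h1]
    refine norm_cfc_le hc0 fun t ht => ?_
    rw [Real.norm_eq_abs]
    exact rsqrt_bound hc1 (spec_near hc ht)

end Pool.Agent.TH552.CC
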