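import Pool.Agent.TH552.CC.VN

/-!
# Maximal abelian subalgebras of near von Neumann algebras
-/

set_option autoImplicit false
set_option linter.unusedSectionVars false
set_option linter.style.haveILetI false

open scoped InnerProductSpace ComplexConjugate
open Filter Topology
open Pool.Agent.Helper278

namespace Pool.Agent.TH552.CC

universe u

variable {H : Type u} [NormedAddCommGroup H] [InnerProductSpace ℂ H] [CompleteSpace H]

/-- the unitary group of a commutative star subalgebra -/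
@[reducible] noncomputable def ugrp (D : StarSubalgebra ℂ (H →L[ℂ] H)) (hc : ∀ x ∈ D, ∀ y ∈ D, x * y = y * x) :
    CommGroup (unitary D) :=
  { (inferInstance : Group (unitary D)) with
    mul_comm := fun a b => Subtype.ext (Subtype.ext (hc _ a.1.2 _ b.1.2)) }

/-- the inclusion of the unitary group -/
noncomputable def uhom (D : StarSubalgebra ℂ (H →L[ℂ] H)) : unitary D →* unitary (H →L[ℂ] H) where
  toFun g := ⟨(g.1 : H →L[ℂ] H), ⟨congrArg Subtype.val g.2.1, congrArg Subtype.val g.2.2⟩⟩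
  map_one' := rfl
  map_mul' _ _ := rfl

theorem uhom_mem (D : StarSubalgebra ℂ (H →L[ℂ] H)) (g : unitary D) :
    (uhom D g : H →L[ℂ] H) ∈ D := g.1.2

/-- unitaries span -/
theorem unitary_ind (D : StarSubalgebra ℂ (H →L[ℂ] H)) (hcl : IsClosed (D : Set (H →L[ℂ] H)))
    (P : Submodule ℂ (H →L[ℂ] H)) (h : ∀ g : unitary D, (uhom D g : H →L[ℂ] H) ∈ P) :
    ∀ x ∈ D, x ∈ P := by
  haveI := hcl
  letI : CStarAlgebra D := StarSubalgebra.cstarAlgebra D
  intro x hx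
  let P' : Submodule ℂ D := P.comap (D.subtype : D →ₗ[ℂ] (H →L[ℂ] H))
  have h1 : Submodule.span ℂ (unitary D : Set D) ≤ P' := by
    rw [Submodule.span_le]
    intro g hg
    exact h ⟨g, hg⟩
  have h2 : (⟨x, hx⟩ : D) ∈ P' := h1 (by
    rw [CStarAlgebra.span_unitary]
    exact Submodule.mem_top)
  exact h2

theorem comm_of_unitary (D : StarSubalgebra ℂ (H →L[ℂ] H))
    (hcl : IsClosed (D : Set (H →L[ℂ] H))) {z : H →L[ℂ] H}
    (h : ∀ g : unitary D, z * (uhom D g : H →L[ℂ] H) = (uhom D g : H →L[ℂ] H) * z) :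
    ∀ x ∈ D, z * x = x * z := by
  let P : Submodule ℂ (H →L[ℂ] H) :=
    LinearMap.ker (LinearMap.mulLeft ℂ z - LinearMap.mulRight ℂ z)
  have hP : ∀ x, x ∈ P ↔ z * x = x * z := by
    intro x
    show (LinearMap.mulLeft ℂ z - LinearMap.mulRight ℂ z) x = 0 ↔ _
    rw [LinearMap.sub_apply, LinearMap.mulLeft_apply, LinearMap.mulRight_apply, sub_eq_zero]
  intro x hx
  exact (hP x).1 (unitary_ind D hcl P (fun g => (hP _).2 (h g)) x hx)

/-- Conjugation of a commutative algebra into a near von Neumann algebra. -/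
theorem conj_masa (D : StarSubalgebra ℂ (H →L[ℂ] H)) (hcl : IsClosed (D : Set (H →L[ℂ] H)))
    (hc : ∀ x ∈ D, ∀ y ∈ D, x * y = y * x) (N : VonNeumannAlgebra H) {ε : ℝ}
    (hε : 0 ≤ ε) (hε1 : ε ≤ 1 / 1000) (hN : ∀ x ∈ D, ‖x‖ ≤ 1 → ∃ y ∈ N, ‖y - x‖ ≤ ε) :
    ∃ W : H →L[ℂ] H, star W * W = 1 ∧ W * star W = 1 ∧ ‖W - 1‖ ≤ 300 * ε ∧
      (∀ x ∈ D, W * x * star W ∈ N) ∧
      ∀ x : H →L[ℂ] H, (∀ y ∈ D, x * y = y * x) → (∀ y ∈ N, x * y = y * x) → x * W = W * x := by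
  letI := ugrp D hc
  obtain ⟨μ⟩ := exists_cmean (unitary D)
  obtain ⟨W, hW1, hW2, hW3, hW4, hW5⟩ := conj_into μ N (uhom D) hε hε1 (fun g =>
    hN _ (uhom_mem D g) (norm_le_one_of_isometry (uhom D g).2.1))
  refine ⟨W, hW1, hW2, hW3, ?_, fun x h1 h2 => hW5 x (fun g => h1 _ (uhom_mem D g)) h2⟩
  let P : Submodule ℂ (H →L[ℂ] H) := (Subalgebra.toSubmodule N.toStarSubalgebra.toSubalgebra).comap
    ((LinearMap.mulRight ℂ (star W)) ∘ₗ (LinearMap.mulLeft ℂ W))
  exact unitary_ind D hcl P fun g => hW4 g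

/-- averaging over a group of unitaries -/
noncomputable def avg {G : Type*} [CommGroup G] (μ : CMean G) (u : G →* unitary (H →L[ℂ] H))
    (x : H →L[ℂ] H) : H →L[ℂ] H :=
  om μ (fun g => (u g : H →L[ℂ] H) * x * star (u g : H →L[ℂ] H))

section avg

variable {G : Type*} [CommGroup G] (μ : CMean G) (u : G →* unitary (H →L[ℂ] H))

theorem unorm (g : G) : ‖(u g : H →L[ℂ] H)‖ ≤ 1 := norm_le_one_of_isometry (u g).2.1

theorem avg_bd (x : H →L[ℂ] H) (g : G) :
    ‖(u g : H →L[ℂ] H) * x * star (u g : H →L[ℂ] H)‖ ≤ ‖x‖ := by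
  calc _ ≤ ‖(u g : H →L[ℂ] H) * x‖ * ‖star (u g : H →L[ℂ] H)‖ := norm_mul_le _ _
    _ ≤ (‖(u g : H →L[ℂ] H)‖ * ‖x‖) * ‖star (u g : H →L[ℂ] H)‖ :=
      mul_le_mul_of_nonneg_right (norm_mul_le _ _) (norm_nonneg _)
    _ ≤ (1 * ‖x‖) * 1 := by
      rw [norm_star]
      exact mul_le_mul (mul_le_mul_of_nonneg_right (unorm u g) (norm_nonneg _)) (unorm u g)
        (norm_nonneg _) (by positivity)
    _ = ‖x‖ := by ring

theorem avg_bdo (x : H →L[ℂ] H) :
    BdO (fun g => (u g : H →L[ℂ] H) * x * star (u g : H →L[ℂ] H)) := ⟨‖x‖, avg_bd u x⟩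

theorem avg_norm (x : H →L[ℂ] H) : ‖avg μ u x‖ ≤ ‖x‖ := om_bound μ (avg_bd u x)

theorem avg_sub (x y : H →L[ℂ] H) : avg μ u (x - y) = avg μ u x - avg μ u y := by
  unfold avg
  rw [← om_sub μ (avg_bdo u x) (avg_bdo u y)]
  congr 1
  funext g
  noncomm_ring

theorem avg_fix {x : H →L[ℂ] H} (h : ∀ g, (u g : H →L[ℂ] H) * x = x * (u g : H →L[ℂ] H)) :
    avg μ u x = x := by
  unfold avg
  have : (fun g => (u g : H →L[ℂ] H) * x * star (u g : H →L[ℂ] H)) = fun _ => x := by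
    funext g
    have h2 : (u g : H →L[ℂ] H) * star (u g : H →L[ℂ] H) = 1 := (u g).2.2
    rw [h, mul_assoc, h2, mul_one]
  rw [this, om_const]

theorem avg_comm (x : H →L[ℂ] H) (a : G) :
    (u a : H →L[ℂ] H) * avg μ u x = avg μ u x * (u a : H →L[ℂ] H) := by
  have h1 : (u a : H →L[ℂ] H) * avg μ u x * star (u a : H →L[ℂ] H) = avg μ u x := by
    unfold avg
    rw [← om_mul_left μ (avg_bdo u x), ← om_mul_right μ ((avg_bdo u x).mul_left _)]
    conv_rhs => rw [← om_inv μ (avg_bdo u x) a]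
    congr 1
    funext g
    have h2 : (u (a * g) : H →L[ℂ] H) = (u a : H →L[ℂ] H) * (u g : H →L[ℂ] H) := by
      rw [map_mul]; rfl
    rw [h2, star_mul]
    noncomm_ring
  have h3 : star (u a : H →L[ℂ] H) * (u a : H →L[ℂ] H) = 1 := (u a).2.1
  calc (u a : H →L[ℂ] H) * avg μ u x =
        (u a : H →L[ℂ] H) * avg μ u x * (star (u a : H →L[ℂ] H) * (u a : H →L[ℂ] H)) := by
        rw [h3, mul_one]
    _ = ((u a : H →L[ℂ] H) * avg μ u x * star (u a : H →L[ℂ] H)) * (u a : H →L[ℂ] H) := by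
        noncomm_ring
    _ = _ := by rw [h1]

theorem avg_mem (N : VonNeumannAlgebra H) (hu : ∀ g, (u g : H →L[ℂ] H) ∈ N) {x : H →L[ℂ] H}
    (hx : x ∈ N) : avg μ u x ∈ N :=
  om_mem μ N (avg_bdo u x) fun g => mul_mem (mul_mem (hu g) hx) (star_mem (hu g))

end avg

theorem isClosed_masa {M : VonNeumannAlgebra H} {D : StarSubalgebra ℂ (H →L[ℂ] H)}
    (hD : IsMasa M D) : IsClosed (D : Set (H →L[ℂ] H)) := by
  have : (D : Set (H →L[ℂ] H)) = {x : H →L[ℂ] H | x ∈ M} ∩ ⋂ y ∈ {y : H →L[ℂ] H | y ∈ D},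
      {x : H →L[ℂ] H | x * y = y * x} := by
    ext x
    simp only [Set.mem_inter_iff, Set.mem_iInter, Set.mem_ofPred_eq, SetLike.mem_coe]
    exact ⟨fun h => ⟨hD.le x h, fun y hy => hD.comm x h y hy⟩, fun h => hD.max x h.1 h.2⟩
  rw [this]
  refine (isClosed_vn M).inter (isClosed_biInter fun y _ => ?_)
  exact isClosed_eq (continuous_id.mul continuous_const) (continuous_const.mul continuous_id)

/-- the average of an element of `M` over the unitaries of a masa is in the masa -/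
theorem avg_mem_masa {M : VonNeumannAlgebra H} {D : StarSubalgebra ℂ (H →L[ℂ] H)}
    (hD : IsMasa M D) (μ : @CMean (unitary D) (ugrp D hD.comm)) {x : H →L[ℂ] H} (hx : x ∈ M) :
    @avg _ _ _ _ _ (ugrp D hD.comm) μ (uhom D) x ∈ D := by
  letI := ugrp D hD.comm
  refine hD.max _ (avg_mem μ (uhom D) M (fun g => hD.le _ (uhom_mem D g)) hx) ?_
  exact comm_of_unitary D (isClosed_masa hD) fun g => (avg_comm μ (uhom D) x g).symm

/-- A masa of `M` contained in a near algebra `N` is a masa there. -/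
theorem masa_transfer {M N : VonNeumannAlgebra H} {D : StarSubalgebra ℂ (H →L[ℂ] H)}
    (hD : IsMasa M D) (hDN : ∀ x ∈ D, x ∈ N) {ε : ℝ} (h : Near N M ε) (hε : ε ≤ 1 / 2) :
    IsMasa N D := by
  refine ⟨hDN, hD.comm, fun x hx hxD => ?_⟩
  letI := ugrp D hD.comm
  obtain ⟨μ⟩ := exists_cmean (unitary D)
  have key : ∀ z ∈ N, (∀ y ∈ D, z * y = y * z) → ∃ d ∈ D, ‖d - z‖ ≤ 1 / 2 * ‖z‖ := by
    intro z hz hzD
    obtain ⟨y, hy, hyz⟩ := h.scaled hz
    refine ⟨avg μ (uhom D) y, avg_mem_masa hD μ hy, ?_⟩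
    have h1 : avg μ (uhom D) z = z := avg_fix μ (uhom D) fun g => (hzD _ (uhom_mem D g)).symm
    have h2 : avg μ (uhom D) y - z = avg μ (uhom D) (y - z) := by rw [avg_sub, h1]
    rw [h2]
    refine (avg_norm μ (uhom D) _).trans (hyz.trans ?_)
    exact mul_le_mul_of_nonneg_right hε (norm_nonneg _)
  have hcl := isClosed_masa hD
  have hne : (D : Set (H →L[ℂ] H)).Nonempty := ⟨0, D.zero_mem⟩
  by_contra hxn
  have hpos : 0 < Metric.infDist x (D : Set (H →L[ℂ] H)) := by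
    rcases (Metric.infDist_nonneg (x := x) (s := (D : Set (H →L[ℂ] H)))).eq_or_lt with h0 | h0
    · exact absurd ((hcl.mem_iff_infDist_zero hne).2 h0.symm) hxn
    · exact h0
  obtain ⟨d0, hd0, hd0x⟩ := (Metric.infDist_lt_iff hne).1
    (show Metric.infDist x (D : Set (H →L[ℂ] H)) < 2 * Metric.infDist x (D : Set (H →L[ℂ] H)) by
      linarith)
  have hd0' : d0 ∈ D := hd0
  obtain ⟨d1, hd1, hd1x⟩ := key (x - d0) (sub_mem hx (hDN _ hd0')) (fun y hy => by
    rw [sub_mul, mul_sub, hxD y hy, hD.comm _ hd0' y hy])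
  have h3 : Metric.infDist x (D : Set (H →L[ℂ] H)) ≤ dist x (d0 + d1) :=
    Metric.infDist_le_dist_of_mem (D.add_mem hd0' hd1)
  have h4 : dist x (d0 + d1) = ‖d1 - (x - d0)‖ := by
    rw [dist_eq_norm, ← norm_neg]
    congr 1
    abel
  rw [dist_eq_norm] at hd0x
  linarith

end Pool.Agent.TH552.CC
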