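import Mathlib
import Pool.Agent.Helper183.Gar.Mean

/-!
# Invariant means of bounded operator valued functions on abelian groups
-/

set_option autoImplicit false
set_option linter.unusedSectionVars false

open scoped InnerProductSpace ComplexConjugate

namespace Pool.Agent.TH552.CC

/-- bounded complex functions -/
def BdC {G : Type*} (f : G → ℂ) : Prop := ∃ C : ℝ, ∀ x, ‖f x‖ ≤ C

/-- an invariant mean on the bounded complex functions -/
structure CMean (G : Type*) [CommGroup G] where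
  /-- the mean -/
  m : (G → ℂ) → ℂ
  add : ∀ f g, BdC f → BdC g → m (fun x => f x + g x) = m f + m g
  smul : ∀ (c : ℂ) f, BdC f → m (fun x => c * f x) = c * m f
  one : m (fun _ => 1) = 1
  bound : ∀ f C, (∀ x, ‖f x‖ ≤ C) → ‖m f‖ ≤ C
  cnj : ∀ f, BdC f → m (fun x => conj (f x)) = conj (m f)
  inv : ∀ f a, BdC f → m (fun x => f (a * x)) = m f

theorem exists_cmean (G : Type*) [CommGroup G] : Nonempty (CMean G) := by
  obtain ⟨M, hadd, hpos, hone, hbd, hinv⟩ := Gardner.exists_mean (Additive G)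
  have hre : ∀ {f : G → ℂ}, BdC f → Gardner.Bdd (fun x : Additive G => (f x.toMul).re) := by
    rintro f ⟨C, hC⟩
    exact ⟨C, fun x => (Complex.abs_re_le_norm _).trans (hC _)⟩
  have him : ∀ {f : G → ℂ}, BdC f → Gardner.Bdd (fun x : Additive G => (f x.toMul).im) := by
    rintro f ⟨C, hC⟩
    exact ⟨C, fun x => (Complex.abs_im_le_norm _).trans (hC _)⟩
  have hsm : ∀ (f : Additive G → ℝ), Gardner.Bdd f → ∀ c : ℝ, M (fun x => c * f x) = c * M f := by
    rintro f ⟨C, hC⟩ c
    have hb : ∀ c : ℝ, ∀ x, |c * f x| ≤ C * ‖c‖ := fun c x => by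
      rw [abs_mul, mul_comm, Real.norm_eq_abs]
      exact mul_le_mul_of_nonneg_right (hC x) (abs_nonneg _)
    let φ : ℝ →+ ℝ := AddMonoidHom.mk' (fun c => M (fun x => c * f x)) (fun a b => by
      have := hadd (fun x => a * f x) (fun x => b * f x) ⟨_, hb a⟩ ⟨_, hb b⟩
      rw [← this]
      congr 1
      funext x
      simp only [Pi.add_apply]
      ring)
    have hcont : Continuous φ := AddMonoidHomClass.continuous_of_bound φ C (fun c => by
      show |M (fun x => c * f x)| ≤ _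
      exact hbd _ _ (hb c))
    have h1 := map_real_smul φ hcont c 1
    simp only [smul_eq_mul, mul_one] at h1
    have h2 : φ 1 = M f := by
      show M (fun x => 1 * f x) = M f
      simp only [one_mul]
    rw [h2] at h1
    exact h1
  obtain ⟨m, hmre, hmim⟩ : ∃ m : (G → ℂ) → ℂ, (∀ f, (m f).re = M (fun x => (f x.toMul).re)) ∧
      (∀ f, (m f).im = M (fun x => (f x.toMul).im)) :=
    ⟨fun f => (M (fun x => (f x.toMul).re) : ℂ) + (M (fun x => (f x.toMul).im) : ℂ) * Complex.I,
      fun f => by simp, fun f => by simp⟩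
  have hmadd : ∀ f g, BdC f → BdC g → m (fun x => f x + g x) = m f + m g := by
    intro f g hf hg
    apply Complex.ext
    · rw [Complex.add_re, hmre, hmre, hmre]
      exact hadd _ _ (hre hf) (hre hg)
    · rw [Complex.add_im, hmim, hmim, hmim]
      exact hadd _ _ (him hf) (him hg)
  have hmsmul : ∀ (c : ℂ) f, BdC f → m (fun x => c * f x) = c * m f := by
    intro c f hf
    have h1 : Gardner.Bdd (fun x : Additive G => c.re * (f x.toMul).re) := by
      obtain ⟨C, hC⟩ := hre hf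
      exact ⟨|c.re| * C, fun x => by
        rw [abs_mul]; exact mul_le_mul_of_nonneg_left (hC x) (abs_nonneg _)⟩
    have h2 : Gardner.Bdd (fun x : Additive G => (-c.im) * (f x.toMul).im) := by
      obtain ⟨C, hC⟩ := him hf
      exact ⟨|-c.im| * C, fun x => by
        rw [abs_mul]; exact mul_le_mul_of_nonneg_left (hC x) (abs_nonneg _)⟩
    have h3 : Gardner.Bdd (fun x : Additive G => c.re * (f x.toMul).im) := by
      obtain ⟨C, hC⟩ := him hf
      exact ⟨|c.re| * C, fun x => by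
        rw [abs_mul]; exact mul_le_mul_of_nonneg_left (hC x) (abs_nonneg _)⟩
    have h4 : Gardner.Bdd (fun x : Additive G => c.im * (f x.toMul).re) := by
      obtain ⟨C, hC⟩ := hre hf
      exact ⟨|c.im| * C, fun x => by
        rw [abs_mul]; exact mul_le_mul_of_nonneg_left (hC x) (abs_nonneg _)⟩
    apply Complex.ext
    · rw [Complex.mul_re, hmre, hmre, hmim]
      have e : (fun x : Additive G => (c * f x.toMul).re) =
          (fun x => c.re * (f x.toMul).re) + (fun x => (-c.im) * (f x.toMul).im) := by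
        funext x
        simp only [Pi.add_apply, Complex.mul_re]
        ring
      rw [e, hadd _ _ h1 h2, hsm _ (hre hf), hsm _ (him hf)]
      ring
    · rw [Complex.mul_im, hmim, hmre, hmim]
      have e : (fun x : Additive G => (c * f x.toMul).im) =
          (fun x => c.re * (f x.toMul).im) + (fun x => c.im * (f x.toMul).re) := by
        funext x
        simp only [Pi.add_apply, Complex.mul_im]
      rw [e, hadd _ _ h3 h4, hsm _ (him hf), hsm _ (hre hf)]
  refine ⟨⟨m, hmadd, hmsmul, ?_, ?_, ?_, ?_⟩⟩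
  · apply Complex.ext
    · rw [hmre]
      simpa using hone
    · rw [hmim]
      have := hsm (fun _ => 1) ⟨1, fun _ => by simp⟩ 0
      simpa using this
  · intro f C hC
    have hf : BdC f := ⟨C, hC⟩
    have hC0 : 0 ≤ C := (norm_nonneg _).trans (hC 1)
    rcases eq_or_ne (m f) 0 with h0 | h0
    · rw [h0, norm_zero]; exact hC0
    · set c : ℂ := conj (m f) / ‖m f‖ with hc
      have hn : (‖m f‖ : ℂ) ≠ 0 := by
        exact_mod_cast (norm_ne_zero_iff.2 h0)
      have hcn : ‖c‖ = 1 := by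
        rw [hc, norm_div, RCLike.norm_conj, Complex.norm_real, norm_norm]
        exact div_self (norm_ne_zero_iff.2 h0)
      have h1 : m (fun x => c * f x) = (‖m f‖ : ℂ) := by
        rw [hmsmul c f hf, hc, div_mul_eq_mul_div, mul_comm, Complex.mul_conj, Complex.normSq_eq_norm_sq]
        push_cast
        field_simp
      have h2 : ‖m f‖ = M (fun x => (c * f x.toMul).re) := by
        rw [← hmre (fun x => c * f x), h1, Complex.ofReal_re]
      rw [h2]
      refine (le_abs_self _).trans (hbd _ _ fun x => ?_)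
      refine (Complex.abs_re_le_norm _).trans ?_
      rw [norm_mul, hcn, one_mul]
      exact hC _
  · intro f hf
    apply Complex.ext
    · rw [Complex.conj_re, hmre, hmre]
      simp
    · rw [Complex.conj_im, hmim, hmim]
      have e : (fun x : Additive G => (conj (f x.toMul)).im) = (fun x => (-1) * (f x.toMul).im) := by
        funext x
        simp
      rw [e, hsm _ (him hf)]
      ring
  · intro f a hf
    apply Complex.ext
    · rw [hmre, hmre]
      exact hinv (fun x => (f x.toMul).re) (Additive.ofMul a) (hre hf)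
    · rw [hmim, hmim]
      exact hinv (fun x => (f x.toMul).im) (Additive.ofMul a) (him hf)

variable {H : Type*} [NormedAddCommGroup H] [InnerProductSpace ℂ H] [CompleteSpace H]

/-- bounded operator valued functions -/
def BdO {G : Type*} (F : G → H →L[ℂ] H) : Prop := ∃ C : ℝ, ∀ x, ‖F x‖ ≤ C

theorem BdO.inner {G : Type*} {F : G → H →L[ℂ] H} (hF : BdO F) (v w : H) :
    BdC (fun g => ⟪v, F g w⟫_ℂ) := by
  obtain ⟨C, hC⟩ := hF
  refine ⟨‖v‖ * (C * ‖w‖), fun g => ?_⟩
  refine (norm_inner_le_norm _ _).trans (mul_le_mul_of_nonneg_left ?_ (norm_nonneg _))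
  exact ((F g).le_opNorm w).trans (mul_le_mul_of_nonneg_right (hC g) (norm_nonneg _))

/-- the mean of operator valued functions -/
theorem exists_omean {G : Type*} [CommGroup G] (μ : CMean G) (F : G → H →L[ℂ] H) (hF : BdO F) :
    ∃ T : H →L[ℂ] H, ∀ v w, ⟪v, T w⟫_ℂ = μ.m (fun g => ⟪v, F g w⟫_ℂ) := by
  obtain ⟨C, hC⟩ := hF
  have hF : BdO F := ⟨C, hC⟩
  have hC0 : 0 ≤ C := (norm_nonneg _).trans (hC 1)
  -- the sesquilinear form `B w v = m (⟪F g w, v⟫)`
  let B : H →ₗ⋆[ℂ] H →ₗ[ℂ] ℂ := LinearMap.mk₂'ₛₗ (starRingEnd ℂ) (RingHom.id ℂ)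
    (fun w v => conj (μ.m (fun g => ⟪v, F g w⟫_ℂ)))
    (fun w w' v => by
      have : (fun g => ⟪v, F g (w + w')⟫_ℂ) = fun g => ⟪v, F g w⟫_ℂ + ⟪v, F g w'⟫_ℂ := by
        funext g
        rw [map_add, inner_add_right]
      rw [this, μ.add _ _ (hF.inner _ _) (hF.inner _ _), map_add])
    (fun c w v => by
      have : (fun g => ⟪v, F g (c • w)⟫_ℂ) = fun g => c * ⟪v, F g w⟫_ℂ := by
        funext g
        rw [map_smul, inner_smul_right]
      rw [this, μ.smul _ _ (hF.inner _ _), map_mul]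
      rfl)
    (fun w v v' => by
      have : (fun g => ⟪v + v', F g w⟫_ℂ) = fun g => ⟪v, F g w⟫_ℂ + ⟪v', F g w⟫_ℂ := by
        funext g
        rw [inner_add_left]
      rw [this, μ.add _ _ (hF.inner _ _) (hF.inner _ _), map_add])
    (fun c w v => by
      have : (fun g => ⟪c • v, F g w⟫_ℂ) = fun g => conj c * ⟪v, F g w⟫_ℂ := by
        funext g
        rw [inner_smul_left]
      rw [this, μ.smul _ _ (hF.inner _ _), map_mul, Complex.conj_conj]
      rfl)
  have hB : ∀ w v, ‖B w v‖ ≤ C * ‖w‖ * ‖v‖ := by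
    intro w v
    show ‖conj (μ.m (fun g => ⟪v, F g w⟫_ℂ))‖ ≤ _
    rw [RCLike.norm_conj]
    refine μ.bound _ _ fun g => ?_
    refine (norm_inner_le_norm _ _).trans ?_
    rw [mul_comm]
    refine mul_le_mul_of_nonneg_right ?_ (norm_nonneg _)
    exact ((F g).le_opNorm w).trans (mul_le_mul_of_nonneg_right (hC g) (norm_nonneg _))
  let B' : H →L⋆[ℂ] H →L[ℂ] ℂ := LinearMap.mkContinuous₂ B C hB
  refine ⟨InnerProductSpace.continuousLinearMapOfBilin B', fun v w => ?_⟩
  have h1 := InnerProductSpace.continuousLinearMapOfBilin_apply B' w v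
  have h2 : B' w v = conj (μ.m (fun g => ⟪v, F g w⟫_ℂ)) := rfl
  rw [← inner_conj_symm, h1, h2, Complex.conj_conj]

/-- the mean of a bounded operator valued function -/
noncomputable def om {G : Type*} [CommGroup G] (μ : CMean G) (F : G → H →L[ℂ] H) : H →L[ℂ] H := by
  classical
  exact if h : BdO F then (exists_omean μ F h).choose else 0

section props

variable {G : Type*} [CommGroup G] (μ : CMean G)

theorem om_spec {F : G → H →L[ℂ] H} (hF : BdO F) (v w : H) :
    ⟪v, om μ F w⟫_ℂ = μ.m (fun g => ⟪v, F g w⟫_ℂ) := by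
  unfold om
  rw [dif_pos hF]
  exact (exists_omean μ F hF).choose_spec v w

theorem ext_op {S T : H →L[ℂ] H} (h : ∀ v w, ⟪v, S w⟫_ℂ = ⟪v, T w⟫_ℂ) : S = T := by
  ext w
  exact ext_inner_left ℂ fun v => h v w

theorem om_add {F F' : G → H →L[ℂ] H} (hF : BdO F) (hF' : BdO F') :
    om μ (fun g => F g + F' g) = om μ F + om μ F' := by
  obtain ⟨C, hC⟩ := hF
  obtain ⟨C', hC'⟩ := hF'
  have hF : BdO F := ⟨C, hC⟩
  have hF' : BdO F' := ⟨C', hC'⟩
  have hs : BdO (fun g => F g + F' g) :=
    ⟨C + C', fun g => (norm_add_le _ _).trans (add_le_add (hC g) (hC' g))⟩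
  refine ext_op fun v w => ?_
  rw [om_spec μ hs, _root_.add_apply, inner_add_right, om_spec μ hF, om_spec μ hF',
    ← μ.add _ _ (hF.inner v w) (hF'.inner v w)]
  congr 1
  funext g
  rw [_root_.add_apply, inner_add_right]

theorem BdO.mul_left {F : G → H →L[ℂ] H} (hF : BdO F) (a : H →L[ℂ] H) :
    BdO (fun g => a * F g) := by
  obtain ⟨C, hC⟩ := hF
  exact ⟨‖a‖ * C, fun g => (norm_mul_le _ _).trans (mul_le_mul_of_nonneg_left (hC g) (norm_nonneg _))⟩

theorem BdO.mul_right {F : G → H →L[ℂ] H} (hF : BdO F) (a : H →L[ℂ] H) :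
    BdO (fun g => F g * a) := by
  obtain ⟨C, hC⟩ := hF
  exact ⟨C * ‖a‖, fun g => (norm_mul_le _ _).trans (mul_le_mul_of_nonneg_right (hC g) (norm_nonneg _))⟩

theorem om_mul_left {F : G → H →L[ℂ] H} (hF : BdO F) (a : H →L[ℂ] H) :
    om μ (fun g => a * F g) = a * om μ F := by
  refine ext_op fun v w => ?_
  rw [om_spec μ (hF.mul_left a)]
  show _ = ⟪v, a (om μ F w)⟫_ℂ
  rw [← ContinuousLinearMap.adjoint_inner_left, om_spec μ hF]
  congr 1
  funext g
  show ⟪v, a (F g w)⟫_ℂ = _
  rw [← ContinuousLinearMap.adjoint_inner_left]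

theorem om_mul_right {F : G → H →L[ℂ] H} (hF : BdO F) (a : H →L[ℂ] H) :
    om μ (fun g => F g * a) = om μ F * a := by
  refine ext_op fun v w => ?_
  rw [om_spec μ (hF.mul_right a)]
  show _ = ⟪v, om μ F (a w)⟫_ℂ
  rw [om_spec μ hF]
  rfl

theorem om_const (a : H →L[ℂ] H) : om μ (fun _ : G => a) = a := by
  refine ext_op fun v w => ?_
  rw [om_spec μ (⟨‖a‖, fun _ => le_rfl⟩ : BdO (fun _ : G => a))]
  have := μ.smul ⟪v, a w⟫_ℂ (fun _ => 1) ⟨1, fun _ => by simp⟩
  rw [μ.one, mul_one] at this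
  simpa using this

theorem om_bound {F : G → H →L[ℂ] H} {C : ℝ} (hC : ∀ g, ‖F g‖ ≤ C) : ‖om μ F‖ ≤ C := by
  have hF : BdO F := ⟨C, hC⟩
  have hC0 : 0 ≤ C := (norm_nonneg _).trans (hC 1)
  refine ContinuousLinearMap.opNorm_le_bound _ hC0 fun w => ?_
  rcases eq_or_ne (om μ F w) 0 with h0 | h0
  · rw [h0, norm_zero]; positivity
  · have h1 : ‖⟪om μ F w, om μ F w⟫_ℂ‖ ≤ ‖om μ F w‖ * (C * ‖w‖) := by
      rw [om_spec μ hF]
      refine μ.bound _ _ fun g => ?_
      refine (norm_inner_le_norm _ _).trans (mul_le_mul_of_nonneg_left ?_ (norm_nonneg _))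
      exact ((F g).le_opNorm w).trans (mul_le_mul_of_nonneg_right (hC g) (norm_nonneg _))
    rw [inner_self_eq_norm_sq_to_K, norm_pow] at h1
    have h2 : ‖((‖om μ F w‖ : ℝ) : ℂ)‖ = ‖om μ F w‖ := by
      rw [Complex.norm_real, norm_norm]
    have h3 : ‖om μ F w‖ ^ 2 ≤ ‖om μ F w‖ * (C * ‖w‖) := by
      calc ‖om μ F w‖ ^ 2 = ‖((‖om μ F w‖ : ℝ) : ℂ)‖ ^ 2 := by rw [h2]
        _ ≤ _ := h1
    have h4 : 0 < ‖om μ F w‖ := norm_pos_iff.2 h0
    nlinarith

theorem om_star {F : G → H →L[ℂ] H} (hF : BdO F) :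
    om μ (fun g => star (F g)) = star (om μ F) := by
  have hs : BdO (fun g => star (F g)) := by
    obtain ⟨C, hC⟩ := hF
    exact ⟨C, fun g => by rw [norm_star]; exact hC g⟩
  refine ext_op fun v w => ?_
  rw [om_spec μ hs, ContinuousLinearMap.star_eq_adjoint, ContinuousLinearMap.adjoint_inner_right,
    ← inner_conj_symm, om_spec μ hF, ← μ.cnj _ (hF.inner w v)]
  congr 1
  funext g
  rw [ContinuousLinearMap.star_eq_adjoint, ContinuousLinearMap.adjoint_inner_right,
    inner_conj_symm]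

theorem om_inv {F : G → H →L[ℂ] H} (hF : BdO F) (a : G) :
    om μ (fun g => F (a * g)) = om μ F := by
  have hs : BdO (fun g => F (a * g)) := by
    obtain ⟨C, hC⟩ := hF
    exact ⟨C, fun g => hC _⟩
  refine ext_op fun v w => ?_
  rw [om_spec μ hs, om_spec μ hF]
  exact μ.inv (fun g => ⟪v, F g w⟫_ℂ) a (hF.inner v w)

theorem om_sub {F F' : G → H →L[ℂ] H} (hF : BdO F) (hF' : BdO F') :
    om μ (fun g => F g - F' g) = om μ F - om μ F' := by
  have h1 : (fun g => F g - F' g) = fun g => F g + (-1) * F' g := by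
    funext g
    noncomm_ring
  rw [h1, om_add μ hF (hF'.mul_left _), om_mul_left μ hF']
  noncomm_ring

theorem om_comm {F : G → H →L[ℂ] H} (hF : BdO F) {x : H →L[ℂ] H}
    (h : ∀ g, x * F g = F g * x) : x * om μ F = om μ F * x := by
  rw [← om_mul_left μ hF, ← om_mul_right μ hF]
  congr 1
  funext g
  exact h g

/-- membership in a von Neumann algebra -/
theorem mem_vn_iff (N : VonNeumannAlgebra H) (x : H →L[ℂ] H) :
    x ∈ N ↔ ∀ y ∈ N.commutant, y * x = x * y := by
  constructor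
  · intro hx y hy
    exact ((VonNeumannAlgebra.mem_commutant_iff.1 hy) x hx).symm
  · intro h
    rw [← VonNeumannAlgebra.commutant_commutant N, VonNeumannAlgebra.mem_commutant_iff]
    exact h

theorem om_mem (N : VonNeumannAlgebra H) {F : G → H →L[ℂ] H} (hF : BdO F)
    (h : ∀ g, F g ∈ N) : om μ F ∈ N := by
  rw [mem_vn_iff]
  intro y hy
  exact om_comm μ hF fun g => (mem_vn_iff N _).1 (h g) y hy

theorem om_near {F : G → H →L[ℂ] H} (hF : BdO F) {a : H →L[ℂ] H} {C : ℝ}
    (hC : ∀ g, ‖F g - a‖ ≤ C) : ‖om μ F - a‖ ≤ C := by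
  have h1 : om μ F - a = om μ (fun g => F g - a) := by
    rw [om_sub μ hF ⟨‖a‖, fun _ => le_rfl⟩, om_const]
  rw [h1]
  exact om_bound μ hC

end props

end Pool.Agent.TH552.CC
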