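import Pool.Agent.TH552.CC.VN

/-!
# A Radon–Nikodym theorem for vector functionals below a trace
-/

set_option autoImplicit false
set_option linter.unusedSectionVars false
set_option linter.style.haveILetI false

open scoped InnerProductSpace ComplexConjugate ComplexOrder
open Filter Topology
open Pool.Agent.Helper278

namespace Pool.Agent.TH552.CC

universe u

variable {H : Type u} [NormedAddCommGroup H] [InnerProductSpace ℂ H] [CompleteSpace H]

theorem exists_cut {y : H →L[ℂ] H} (hy : IsSelfAdjoint y) {ε : ℝ} (hε : 0 < ε) :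
    ∃ k : H →L[ℂ] H, 0 ≤ k ∧ k ≤ 1 ∧ (∀ N : VonNeumannAlgebra H, y ∈ N → k ∈ N) ∧ 0 ≤ k * y ∧
      y ≤ k * y + algebraMap ℝ (H →L[ℂ] H) ε := by
  let f : ℝ → ℝ := fun t => max t 0 / (max t 0 + ε)
  have hden : ∀ t : ℝ, 0 < max t 0 + ε := fun t => by
    have : 0 ≤ max t 0 := le_max_right _ _
    linarith
  have hf : Continuous f :=
    (continuous_id.max continuous_const).div
      ((continuous_id.max continuous_const).add continuous_const) fun t => (hden t).ne'
  have h1 : ∀ t, 0 ≤ f t := fun t => div_nonneg (le_max_right _ _) (hden t).le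
  have h2 : ∀ t, f t ≤ 1 := fun t => by
    rw [div_le_one (hden t)]
    linarith
  have h3 : ∀ t, 0 ≤ f t * t := by
    intro t
    rcases le_total 0 t with h | h
    · exact mul_nonneg (h1 t) h
    · have : f t = 0 := by
        show max t 0 / (max t 0 + ε) = 0
        rw [max_eq_right h, zero_div]
      rw [this, zero_mul]
  have h4 : ∀ t, t ≤ f t * t + ε := by
    intro t
    rcases le_total 0 t with h | h
    · show t ≤ max t 0 / (max t 0 + ε) * t + ε
      rw [max_eq_left h]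
      have h5 : 0 < t + ε := by linarith
      have h6 : t / (t + ε) * t + ε - t = ε * ε / (t + ε) := by
        field_simp
        ring
      have h7 : 0 ≤ ε * ε / (t + ε) := by positivity
      linarith
    · have := h3 t
      linarith
  have hky : cfc f y * y = cfc (fun t => f t * t) y := by
    have := cfc_mul f (fun t : ℝ => t) y hf.continuousOn continuousOn_id
    rw [cfc_id' ℝ y hy] at this
    exact this.symm
  have hc2 : Continuous (fun t => f t * t) := hf.mul continuous_id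
  refine ⟨cfc f y, cfc_nonneg fun t _ => h1 t, cfc_le_one _ _ fun t _ => h2 t,
    fun N hN => cfc_mem N f y hN hy, ?_, ?_⟩
  · rw [hky]
    exact cfc_nonneg fun t _ => h3 t
  · rw [hky, ← cfc_add_const ε (fun t => f t * t) y hc2.continuousOn hy]
    conv_lhs => rw [← cfc_id' ℝ y hy]
    exact cfc_mono (fun t _ => h4 t) continuousOn_id (hc2.add continuous_const).continuousOn

theorem re_inner_nonneg {z : H →L[ℂ] H} (hz : 0 ≤ z) (v : H) : 0 ≤ (⟪v, z v⟫_ℂ).re := by
  have h1 := (ContinuousLinearMap.nonneg_iff_isPositive _).1 hz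
  exact (Complex.nonneg_iff.1 (h1.inner_nonneg_right v)).1

/-- the positive part of the unit ball, in the weak operator topology -/
def posBall (M : VonNeumannAlgebra H) : Set (H →WOT[ℂ] H) :=
  {k | 0 ≤ k.toCLM ∧ k.toCLM ≤ 1 ∧ k.toCLM ∈ M}

theorem isClosed_pos : IsClosed {k : H →WOT[ℂ] H | 0 ≤ k.toCLM} := by
  have : {k : H →WOT[ℂ] H | 0 ≤ k.toCLM} =
      ⋂ x : H, {k : H →WOT[ℂ] H | 0 ≤ ⟪x, k x⟫_ℂ} := by
    ext y
    simp only [Set.mem_ofPred_eq, Set.mem_iInter]
    rw [ContinuousLinearMap.nonneg_iff_isPositive]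
    constructor
    · intro h x
      exact h.inner_nonneg_right x
    · intro h
      rw [ContinuousLinearMap.isPositive_iff_complex]
      intro x
      have hx := h x
      have h5 : ⟪y.toCLM x, x⟫_ℂ = (starRingEnd ℂ) ⟪x, y x⟫_ℂ := by
        rw [inner_conj_symm]; rfl
      rw [Complex.nonneg_iff] at hx
      have h7 : (⟪y.toCLM x, x⟫_ℂ).re = (⟪x, y x⟫_ℂ).re := by
        rw [h5, Complex.conj_re]
      have h8 : (⟪y.toCLM x, x⟫_ℂ).im = 0 := by
        rw [h5, Complex.conj_im, ← hx.2, neg_zero]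
      constructor
      · apply Complex.ext
        · simp
        · rw [h8]; simp
      · have : 0 ≤ (⟪y.toCLM x, x⟫_ℂ).re := by rw [h7]; exact hx.1
        exact this
  rw [this]
  refine isClosed_iInter fun x => ?_
  have hcont : Continuous (fun y : H →WOT[ℂ] H => ⟪x, y x⟫_ℂ) := by
    have := continuous_id (X := H →WOT[ℂ] H)
    rw [ContinuousLinearMapWOT.continuous_iff] at this
    exact this x x
  exact isClosed_le continuous_const hcont

theorem isCompact_posBall (M : VonNeumannAlgebra H) : IsCompact (posBall M) := by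
  have hsub : posBall M = {T : H →WOT[ℂ] H | ‖T.toCLM‖ ≤ 1} ∩
      ({k : H →WOT[ℂ] H | 0 ≤ k.toCLM} ∩
        ({k : H →WOT[ℂ] H | 0 ≤ (1 - k).toCLM} ∩
        (⋂ t ∈ {t : H →L[ℂ] H | t ∈ M.commutant}, {y : H →WOT[ℂ] H |
          ContinuousLinearMapWOT.ofCLM t * y = y * ContinuousLinearMapWOT.ofCLM t}))) := by
    ext k
    have e1 : (1 - k).toCLM = 1 - k.toCLM := rfl
    have e2 : k.toCLM ∈ M ↔ k ∈ ⋂ t ∈ {t : H →L[ℂ] H | t ∈ M.commutant}, {y : H →WOT[ℂ] H |
          ContinuousLinearMapWOT.ofCLM t * y = y * ContinuousLinearMapWOT.ofCLM t} := by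
      rw [mem_vn_iff]
      simp only [Set.mem_iInter, Set.mem_ofPred_eq]
      constructor
      · intro h t ht
        apply ContinuousLinearMapWOT.toCLM_injective
        simpa using h t ht
      · intro h t ht
        have := congrArg ContinuousLinearMapWOT.toCLM (h t ht)
        simpa using this
    constructor
    · rintro ⟨h1, h2, h3⟩
      refine ⟨?_, h1, ?_, e2.1 h3⟩
      · exact (CStarAlgebra.norm_le_one_iff_of_nonneg _ h1).2 h2
      · show 0 ≤ (1 - k).toCLM
        rw [e1]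
        exact sub_nonneg.2 h2
    · rintro ⟨-, h1, h2, h3⟩
      refine ⟨h1, ?_, e2.2 h3⟩
      have h2' : 0 ≤ (1 - k).toCLM := h2
      rw [e1] at h2'
      exact sub_nonneg.1 h2'
  rw [hsub]
  refine isCompact_wot_ball.inter_right (isClosed_pos.inter ((isClosed_pos.preimage
    (continuous_const.sub continuous_id)).inter ?_))
  refine isClosed_biInter fun t _ => isClosed_eq ?_ ?_
  · exact continuous_const_mul _
  · exact continuous_mul_const _

theorem exists_rn {M : VonNeumannAlgebra H} (T : TracialState M) (ξ : ℕ → H)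
    (hξ : Summable (fun k => ‖ξ k‖ ^ 2))
    (hT : ∀ x : Elt M, T.τ x = ∑' k, ⟪ξ k, (x : H →L[ℂ] H) (ξ k)⟫_ℂ) (j : ℕ) :
    ∃ h : Elt M, star h = h ∧ ∀ x : Elt M, ⟪ξ j, (x : H →L[ℂ] H) (ξ j)⟫_ℂ = T.τ (h * x) := by
  classical
  let F : (H →L[ℂ] H) → (H →L[ℂ] H) →ₗ[ℂ] ℂ := fun x =>
    nfun ξ (fun n => x (ξ n)) hξ (summable_norm_apply ξ hξ x)
  have hFτ : ∀ (k x : Elt M), F (x : H →L[ℂ] H) (k : H →L[ℂ] H) = T.τ (k * x) := by
    intro k x
    rw [hT]
    rfl
  have hFc : ∀ x, WotCont (F x) := fun x => wotCont_nfun _ _ _ _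
  let ι : Type u := {x : H →L[ℂ] H // x ∈ M ∧ IsSelfAdjoint x}
  let t : ι → Set (H →WOT[ℂ] H) := fun x =>
    posBall M ∩ {k | (F x.1 k.toCLM).re = (⟪ξ j, x.1 (ξ j)⟫_ℂ).re}
  have hsubB : posBall M ⊆ {T : H →WOT[ℂ] H | ‖T.toCLM‖ ≤ 1} := fun k hk =>
    (CStarAlgebra.norm_le_one_iff_of_nonneg _ hk.1).2 hk.2.1
  have hcontF : ∀ x, ContinuousOn (fun k : H →WOT[ℂ] H => (F x k.toCLM).re) (posBall M) := by
    intro x
    exact Complex.continuous_re.comp_continuousOn ((hFc x).mono hsubB)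
  have htc : ∀ x, IsClosed (t x) := by
    intro x
    exact (hcontF x.1).preimage_isClosed_of_isClosed (isCompact_posBall M).isClosed
      isClosed_singleton
  have key : ∀ y : H →L[ℂ] H, y ∈ M → IsSelfAdjoint y → ∀ ε : ℝ, 0 < ε →
      ∃ k ∈ posBall M, (⟪ξ j, y (ξ j)⟫_ℂ).re ≤ (F y k.toCLM).re + ε * ‖ξ j‖ ^ 2 := by
    intro y hy hys ε hε
    obtain ⟨k, hk0, hk1, hkM, hky, hyk⟩ := exists_cut hys hε
    refine ⟨ContinuousLinearMapWOT.ofCLM k, ⟨hk0, hk1, hkM M hy⟩, ?_⟩
    have h1 : (⟪ξ j, y (ξ j)⟫_ℂ).re ≤ (⟪ξ j, (k * y) (ξ j)⟫_ℂ).re + ε * ‖ξ j‖ ^ 2 := by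
      have h2 := re_inner_nonneg (sub_nonneg.2 hyk) (ξ j)
      have h3 : (k * y + algebraMap ℝ (H →L[ℂ] H) ε - y) (ξ j) =
          (k * y) (ξ j) + (ε : ℂ) • ξ j - y (ξ j) := by
        have h4 : (algebraMap ℝ (H →L[ℂ] H) ε) (ξ j) = (ε : ℂ) • ξ j := by
          rw [Algebra.algebraMap_eq_smul_one]
          show ε • (ξ j) = (ε : ℂ) • ξ j
          rw [Complex.coe_smul]
        show (k * y) (ξ j) + (algebraMap ℝ (H →L[ℂ] H) ε) (ξ j) - y (ξ j) = _
        rw [h4]
      rw [h3, inner_sub_right, inner_add_right, inner_smul_right, inner_self_eq_norm_sq_to_K,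
        Complex.sub_re, Complex.add_re, Complex.re_ofReal_mul] at h2
      have h5 : ((‖ξ j‖ : ℂ) ^ 2).re = ‖ξ j‖ ^ 2 := by
        rw [← Complex.ofReal_pow, Complex.ofReal_re]
      have h6 : ((((‖ξ j‖ : ℝ) : ℂ)) ^ 2).re = ‖ξ j‖ ^ 2 := h5
      have h7 := h2
      erw [h6] at h7
      linarith
    have h8 : (⟪ξ j, (k * y) (ξ j)⟫_ℂ).re ≤ (F y k).re := by
      show _ ≤ (∑' n, ⟪ξ n, k (y (ξ n))⟫_ℂ).re
      have hs := summable_inner ξ (fun n => y (ξ n)) hξ (summable_norm_apply ξ hξ y) k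
      rw [Complex.re_tsum hs]
      have hs' : Summable fun n => (⟪ξ n, k (y (ξ n))⟫_ℂ).re := Complex.reCLM.summable hs
      exact hs'.le_tsum j fun n _ => re_inner_nonneg hky (ξ n)
    show _ ≤ (F y k).re + _
    linarith
  have hfin : ∀ u : Finset ι, (posBall M ∩ ⋂ i ∈ u, t i).Nonempty := by
    intro u
    let Φ : (H →WOT[ℂ] H) → (u → ℝ) := fun k i => (F i.1.1 k.toCLM).re
    let pt : u → ℝ := fun i => (⟪ξ j, i.1.1 (ξ j)⟫_ℂ).re
    by_cases hpt : pt ∈ Φ '' (posBall M)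
    · obtain ⟨k, hk, hkp⟩ := hpt
      refine ⟨k, hk, ?_⟩
      simp only [Set.mem_iInter]
      intro i hi
      exact ⟨hk, congrFun hkp ⟨i, hi⟩⟩
    · exfalso
      have hcomp : IsCompact (Φ '' (posBall M)) :=
        (isCompact_posBall M).image_of_continuousOn
          (continuousOn_pi.2 fun i => hcontF i.1.1)
      have hconv : Convex ℝ (Φ '' (posBall M)) := by
        rintro _ ⟨k1, hk1, rfl⟩ _ ⟨k2, hk2, rfl⟩ a b ha hb hab
        have ha' : (0 : ℂ) ≤ (a : ℂ) := by exact_mod_cast ha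
        have hb' : (0 : ℂ) ≤ (b : ℂ) := by exact_mod_cast hb
        refine ⟨ContinuousLinearMapWOT.ofCLM ((a : ℂ) • k1.toCLM + (b : ℂ) • k2.toCLM),
          ⟨?_, ?_, ?_⟩, ?_⟩
        · show (0 : H →L[ℂ] H) ≤ (a : ℂ) • k1.toCLM + (b : ℂ) • k2.toCLM
          rw [Complex.coe_smul, Complex.coe_smul]
          exact add_nonneg (smul_nonneg ha hk1.1) (smul_nonneg hb hk2.1)
        · show (a : ℂ) • k1.toCLM + (b : ℂ) • k2.toCLM ≤ (1 : H →L[ℂ] H)
          rw [Complex.coe_smul, Complex.coe_smul]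
          calc a • k1.toCLM + b • k2.toCLM ≤ a • (1 : H →L[ℂ] H) + b • (1 : H →L[ℂ] H) :=
                add_le_add (smul_le_smul_of_nonneg_left hk1.2.1 ha)
                  (smul_le_smul_of_nonneg_left hk2.2.1 hb)
            _ = 1 := by rw [← add_smul, hab, one_smul]
        · show (a : ℂ) • k1.toCLM + (b : ℂ) • k2.toCLM ∈ M
          exact add_mem (M.toStarSubalgebra.smul_mem hk1.2.2 _)
            (M.toStarSubalgebra.smul_mem hk2.2.2 _)
        · funext i
          show (F i.1.1 ((a : ℂ) • k1.toCLM + (b : ℂ) • k2.toCLM)).re =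
            a * (F i.1.1 k1.toCLM).re + b * (F i.1.1 k2.toCLM).re
          rw [map_add, map_smul, map_smul, Complex.add_re, smul_eq_mul, smul_eq_mul,
            Complex.re_ofReal_mul, Complex.re_ofReal_mul]
      obtain ⟨f, c, hf1, hf2⟩ := geometric_hahn_banach_closed_point hconv hcomp.isClosed hpt
      let co : u → ℝ := fun i => f (fun j => if i = j then 1 else 0)
      have hfv : ∀ v : u → ℝ, f v = ∑ i, v i * co i := fun v =>
        LinearMap.pi_apply_eq_sum_univ (f : (u → ℝ) →ₗ[ℝ] ℝ) v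
      let y : H →L[ℂ] H := ∑ i : u, (co i : ℂ) • i.1.1
      have hyM : y ∈ M := sum_mem fun i _ => M.toStarSubalgebra.smul_mem i.1.2.1 _
      have hys : IsSelfAdjoint y := by
        show star y = y
        show star (∑ i : u, (co i : ℂ) • i.1.1) = ∑ i : u, (co i : ℂ) • i.1.1
        rw [star_sum]
        refine Finset.sum_congr rfl fun i _ => ?_
        rw [star_smul, i.1.2.2.star_eq]
        simp
      have hFy : ∀ k : H →L[ℂ] H, (F y k).re = ∑ i : u, (F i.1.1 k).re * co i := by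
        intro k
        have hadd : ∀ (s : Finset u), (F (∑ i ∈ s, (co i : ℂ) • i.1.1) k) =
            ∑ i ∈ s, (co i : ℂ) * F i.1.1 k := by
          intro s
          have e1 : ∀ x : H →L[ℂ] H, F x k = nfun ξ ξ hξ hξ (k * x) := fun x => rfl
          rw [e1, Finset.mul_sum, map_sum]
          refine Finset.sum_congr rfl fun i _ => ?_
          rw [mul_smul_comm, map_smul, e1]
          rfl
        rw [show F y k = _ from hadd Finset.univ, Complex.re_sum]
        refine Finset.sum_congr rfl fun i _ => ?_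
        rw [Complex.re_ofReal_mul, mul_comm]
      have hωy : (⟪ξ j, y (ξ j)⟫_ℂ).re = ∑ i : u, (⟪ξ j, i.1.1 (ξ j)⟫_ℂ).re * co i := by
        have e2 : y (ξ j) = ∑ i : u, (co i : ℂ) • (i.1.1 (ξ j)) := by
          show (∑ i : u, (co i : ℂ) • i.1.1) (ξ j) = _
          rw [_root_.sum_apply]
          rfl
        rw [e2, inner_sum, Complex.re_sum]
        refine Finset.sum_congr rfl fun i _ => ?_
        rw [inner_smul_right, Complex.re_ofReal_mul, mul_comm]
      have h9 : c < (⟪ξ j, y (ξ j)⟫_ℂ).re := by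
        rw [hωy, ← hfv pt]
        exact hf2
      set δ := (⟪ξ j, y (ξ j)⟫_ℂ).re - c with hδ
      have hδ0 : 0 < δ := by linarith
      have hpos : (0 : ℝ) < ‖ξ j‖ ^ 2 + 1 := by positivity
      obtain ⟨k, hk, hk2⟩ := key y hyM hys (δ / (‖ξ j‖ ^ 2 + 1)) (by positivity)
      have h10 : (F y k.toCLM).re < c := by
        rw [hFy, ← hfv (Φ k)]
        exact hf1 _ ⟨k, hk, rfl⟩
      have h11 : δ / (‖ξ j‖ ^ 2 + 1) * ‖ξ j‖ ^ 2 ≤ δ := by
        rw [div_mul_eq_mul_div, div_le_iff₀ hpos]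
        nlinarith
      linarith
  obtain ⟨k, hk, hkt⟩ := (isCompact_posBall M).inter_iInter_nonempty t htc hfin
  have hksa : IsSelfAdjoint k.toCLM := IsSelfAdjoint.of_nonneg hk.1
  let h : Elt M := ⟨k.toCLM, hk.2.2⟩
  have hh : star h = h := Subtype.ext hksa.star_eq
  have hA := trAlg T
  have hsa : ∀ x : Elt M, star x = x →
      ⟪ξ j, (x : H →L[ℂ] H) (ξ j)⟫_ℂ = T.τ (h * x) := by
    intro x hx
    have hx' : IsSelfAdjoint (x : H →L[ℂ] H) := congrArg Subtype.val hx
    have h1 := Set.mem_iInter.1 hkt ⟨(x : H →L[ℂ] H), x.2, hx'⟩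
    have h2 : (F (x : H →L[ℂ] H) k.toCLM).re = (⟪ξ j, (x : H →L[ℂ] H) (ξ j)⟫_ℂ).re := h1.2
    have h3 : F (x : H →L[ℂ] H) k.toCLM = T.τ (h * x) := hFτ h x
    rw [h3] at h2
    apply Complex.ext
    · exact h2.symm
    · have h4 : (T.τ (h * x)).im = 0 := hA.real_of_sa h x hh hx
      rw [h4]
      have h5 : ⟪ξ j, (x : H →L[ℂ] H) (ξ j)⟫_ℂ = conj ⟪ξ j, (x : H →L[ℂ] H) (ξ j)⟫_ℂ := by
        rw [inner_conj_symm]
        have h6 : star (x : H →L[ℂ] H) = x := hx'
        conv_rhs => rw [← h6]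
        rw [ContinuousLinearMap.star_eq_adjoint, ContinuousLinearMap.adjoint_inner_left]
      have h7 := congrArg Complex.im h5
      rw [Complex.conj_im] at h7
      linarith
  refine ⟨h, hh, fun x => ?_⟩
  -- decomposition into self-adjoint elements
  have e1 : x = (1 / 2 : ℂ) • (x + star x) + (-(Complex.I) / 2) • (Complex.I • (x - star x)) := by
    rw [smul_smul]
    have : -Complex.I / 2 * Complex.I = 1 / 2 := by
      rw [div_mul_eq_mul_div, neg_mul, Complex.I_mul_I]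
      norm_num
    rw [this, ← smul_add]
    have h2 : x + star x + (x - star x) = (2 : ℂ) • x := by
      rw [two_smul]
      abel
    rw [h2, smul_smul]
    norm_num
  have s1 : star (x + star x) = x + star x := by
    rw [star_add, star_star, add_comm]
  have s2 : star (Complex.I • (x - star x)) = Complex.I • (x - star x) := by
    rw [star_smul, star_sub, star_star, Complex.star_def, Complex.conj_I, neg_smul, ← smul_neg,
      neg_sub]
  have t1 := hsa _ s1
  have t2 := hsa _ s2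
  have lin : ∀ (a b : ℂ) (p q : Elt M), ⟪ξ j, ((a • p + b • q : Elt M) : H →L[ℂ] H) (ξ j)⟫_ℂ =
      a * ⟪ξ j, (p : H →L[ℂ] H) (ξ j)⟫_ℂ + b * ⟪ξ j, (q : H →L[ℂ] H) (ξ j)⟫_ℂ := by
    intro a b p q
    have : ((a • p + b • q : Elt M) : H →L[ℂ] H) (ξ j) =
        a • (p : H →L[ℂ] H) (ξ j) + b • (q : H →L[ℂ] H) (ξ j) := rfl
    rw [this, inner_add_right, inner_smul_right, inner_smul_right]
  have lin2 : ∀ (a b : ℂ) (p q : Elt M), T.τ (h * (a • p + b • q)) =
      a * T.τ (h * p) + b * T.τ (h * q) := by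
    intro a b p q
    rw [mul_add, map_add, mul_smul_comm, mul_smul_comm, map_smul, map_smul]
    rfl
  rw [e1, lin, t1, t2, lin2]

/-- There is a nonzero vector whose vector functional is centralized by a masa. -/
theorem exists_central_vector {M : VonNeumannAlgebra H} (T : TracialState M) :
    ∃ (v : H) (A : StarSubalgebra ℂ (H →L[ℂ] H)), v ≠ 0 ∧ IsMasa M A ∧
      ∀ a ∈ A, ∀ y ∈ M, ⟪v, (a * y) v⟫_ℂ = ⟪v, (y * a) v⟫_ℂ := by
  obtain ⟨ξ, hξ, hT⟩ := T.normal
  obtain ⟨j, hj⟩ : ∃ j, ξ j ≠ 0 := by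
    by_contra hcon
    push Not at hcon
    have h1 := hT 1
    rw [T.map_one] at h1
    simp [hcon] at h1
  obtain ⟨h, hh, hrn⟩ := exists_rn T ξ hξ hT j
  obtain ⟨A, hA, hhA⟩ := exists_masa M {(h : H →L[ℂ] H)} (by
      rintro x rfl
      exact h.2) (by
      rintro x rfl
      exact congrArg Subtype.val hh) (by
      rintro x rfl y rfl
      rfl)
  refine ⟨ξ j, A, hj, hA, fun a ha y hy => ?_⟩
  have haM : a ∈ M := hA.le a ha
  have h1 := hrn (⟨a, haM⟩ * ⟨y, hy⟩)
  have h2 := hrn (⟨y, hy⟩ * ⟨a, haM⟩)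
  have hc : h * ⟨a, haM⟩ = ⟨a, haM⟩ * h := Subtype.ext (hA.comm _ (hhA _ rfl) _ ha)
  have h3 : T.τ (h * (⟨a, haM⟩ * ⟨y, hy⟩)) = T.τ (h * (⟨y, hy⟩ * ⟨a, haM⟩)) := by
    rw [← mul_assoc, hc, mul_assoc, T.tracial, mul_assoc]
  rw [h3] at h1
  exact h1.trans h2.symm

end Pool.Agent.TH552.CC
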