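import Pool.Agent.TH552.CC.Isqrt

/-!
# Small perturbations of unitary representations of abelian groups into von Neumann algebras
-/

set_option autoImplicit false
set_option linter.unusedSectionVars false

open scoped InnerProductSpace ComplexConjugate
open Filter Topology

namespace Pool.Agent.TH552.CC

variable {H : Type*} [NormedAddCommGroup H] [InnerProductSpace ℂ H] [CompleteSpace H]

theorem isClosed_vn (N : VonNeumannAlgebra H) : IsClosed {x : H →L[ℂ] H | x ∈ N} := by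
  have : {x : H →L[ℂ] H | x ∈ N} = ⋂ y ∈ {y : H →L[ℂ] H | y ∈ N.commutant},
      {x : H →L[ℂ] H | y * x = x * y} := by
    ext x
    simp only [Set.mem_ofPred_eq, Set.mem_iInter]
    exact mem_vn_iff N x
  rw [this]
  refine isClosed_biInter fun y _ => ?_
  exact isClosed_eq (continuous_const.mul continuous_id) (continuous_id.mul continuous_const)

theorem inv_mem_vn (N : VonNeumannAlgebra H) {y z : H →L[ℂ] H} (hy : y ∈ N) (h1 : z * y = 1)
    (h2 : y * z = 1) : z ∈ N := by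
  rw [mem_vn_iff] at hy ⊢
  intro x hx
  calc x * z = (z * y) * x * z := by rw [h1, one_mul]
    _ = z * (y * x) * z := by noncomm_ring
    _ = z * (x * y) * z := by rw [← hy x hx]
    _ = z * x * (y * z) := by noncomm_ring
    _ = z * x := by rw [h2, mul_one]

theorem norm_le_one_of_isometry {u : H →L[ℂ] H} (h : star u * u = 1) : ‖u‖ ≤ 1 := by
  have h1 : ‖u‖ * ‖u‖ ≤ 1 := by
    rw [← CStarRing.norm_star_mul_self, h]
    exact norm_one_le'
  nlinarith [norm_nonneg u]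

/-- elements near a unitary are invertible -/
theorem exists_inv {y u : H →L[ℂ] H} (hu : star u * u = 1) (hu' : u * star u = 1) {r : ℝ}
    (hr : ‖y - u‖ ≤ r) (hr1 : r ≤ 1 / 10) : ∃ z : H →L[ℂ] H, z * y = 1 ∧ y * z = 1 ∧ ‖z‖ ≤ 10 / 9 := by
  have hus : ‖star u‖ ≤ 1 := by rw [norm_star]; exact norm_le_one_of_isometry hu
  have h1 : ‖1 - star u * y‖ < 1 := by
    have : 1 - star u * y = star u * (u - y) := by rw [mul_sub, hu]
    rw [this]
    calc ‖star u * (u - y)‖ ≤ ‖star u‖ * ‖u - y‖ := norm_mul_le _ _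
      _ ≤ 1 * r := by
        refine mul_le_mul hus ?_ (norm_nonneg _) zero_le_one
        rwa [norm_sub_rev]
      _ < 1 := by linarith
  have h2 : IsUnit (star u * y) := by
    have := isUnit_one_sub_of_norm_lt_one h1
    rwa [sub_sub_cancel] at this
  obtain ⟨w, hw⟩ := h2
  have hw1 : (↑w⁻¹ : H →L[ℂ] H) * (star u * y) = 1 := by rw [← hw]; exact w.inv_mul
  have hw2 : (star u * y) * (↑w⁻¹ : H →L[ℂ] H) = 1 := by rw [← hw]; exact w.mul_inv
  refine ⟨(↑w⁻¹ : H →L[ℂ] H) * star u, by rw [mul_assoc]; exact hw1, ?_, ?_⟩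
  · calc y * ((↑w⁻¹ : H →L[ℂ] H) * star u) = (u * star u) * y * ((↑w⁻¹ : H →L[ℂ] H) * star u) := by
          rw [hu', one_mul]
      _ = u * ((star u * y) * (↑w⁻¹ : H →L[ℂ] H)) * star u := by noncomm_ring
      _ = 1 := by rw [hw2, mul_one, hu']
  · set z := (↑w⁻¹ : H →L[ℂ] H) * star u with hz
    have hzy : z * y = 1 := by rw [hz, mul_assoc]; exact hw1
    have h3 : z = star u + z * (u - y) * star u := by
      calc z = z * (u * star u) := by rw [hu', mul_one]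
        _ = z * y * star u + z * (u - y) * star u := by noncomm_ring
        _ = _ := by rw [hzy, one_mul]
    have h4 : ‖z‖ ≤ 1 + ‖z‖ * r := by
      calc ‖z‖ = ‖star u + z * (u - y) * star u‖ := by rw [← h3]
        _ ≤ ‖star u‖ + ‖z * (u - y) * star u‖ := norm_add_le _ _
        _ ≤ 1 + ‖z‖ * ‖u - y‖ * 1 := by
          refine add_le_add hus ((norm_mul_le _ _).trans ?_)
          exact mul_le_mul (norm_mul_le _ _) hus (norm_nonneg _) (by positivity)
        _ ≤ 1 + ‖z‖ * r := by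
          rw [mul_one, norm_sub_rev]
          exact add_le_add le_rfl (mul_le_mul_of_nonneg_left hr (norm_nonneg _))
    have h5 : ‖z‖ * r ≤ ‖z‖ * (1 / 10) := mul_le_mul_of_nonneg_left hr1 (norm_nonneg _)
    linarith

section ulam

variable {G : Type*} [CommGroup G]

/-- the iteration step -/
theorem ulam_step (μ : CMean G) (N : VonNeumannAlgebra H) (u : G →* unitary (H →L[ℂ] H))
    (φ : G → H →L[ℂ] H) {r d : ℝ} (hr : r ≤ 1 / 10) (hφN : ∀ g, φ g ∈ N)
    (hφr : ∀ g, ‖φ g - u g‖ ≤ r) (hφd : ∀ a b, ‖φ a * φ b - φ (a * b)‖ ≤ d) :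
    ∃ φ' : G → H →L[ℂ] H, (∀ g, φ' g ∈ N) ∧ (∀ g, ‖φ' g - φ g‖ ≤ 10 / 9 * d) ∧
      ∀ a b, ‖φ' a * φ' b - φ' (a * b)‖ ≤ 5 * d ^ 2 := by
  have hd0 : 0 ≤ d := (norm_nonneg _).trans (hφd 1 1)
  have hu1 : ∀ g, star (u g : H →L[ℂ] H) * (u g : H →L[ℂ] H) = 1 := fun g => (u g).2.1
  have hu2 : ∀ g, (u g : H →L[ℂ] H) * star (u g : H →L[ℂ] H) = 1 := fun g => (u g).2.2
  choose z hz1 hz2 hz3 using fun g => exists_inv (hu1 g) (hu2 g) (hφr g) hr
  have hzN : ∀ g, z g ∈ N := fun g => inv_mem_vn N (hφN g) (hz1 g) (hz2 g)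
  have hφn : ∀ g, ‖φ g‖ ≤ 11 / 10 := by
    intro g
    calc ‖φ g‖ = ‖(φ g - u g) + (u g : H →L[ℂ] H)‖ := by rw [sub_add_cancel]
      _ ≤ r + 1 := (norm_add_le _ _).trans (add_le_add (hφr g) (norm_le_one_of_isometry (hu1 g)))
      _ ≤ 11 / 10 := by linarith
  have hbd : ∀ a b : G → G, BdO (fun h => z (a h) * φ (b h)) := by
    intro a b
    refine ⟨10 / 9 * (11 / 10), fun h => (norm_mul_le _ _).trans ?_⟩
    exact mul_le_mul (hz3 _) (hφn _) (norm_nonneg _) (by norm_num)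
  have hX : ∀ a h, ‖z h * φ (h * a) - φ a‖ ≤ 10 / 9 * d := by
    intro a h
    have : z h * φ (h * a) - φ a = z h * (φ (h * a) - φ h * φ a) := by
      rw [mul_sub, ← mul_assoc, hz1, one_mul]
    rw [this]
    refine (norm_mul_le _ _).trans (mul_le_mul (hz3 h) ?_ (norm_nonneg _) (by norm_num))
    rw [norm_sub_rev]
    exact hφd h a
  let φ' : G → H →L[ℂ] H := fun a => om μ (fun h => z h * φ (h * a))
  have hφ'near : ∀ a, ‖φ' a - φ a‖ ≤ 10 / 9 * d := fun a => om_near μ (hbd _ _) (hX a)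
  refine ⟨φ', fun a => om_mem μ N (hbd _ _) fun h => mul_mem (hzN _) (hφN _), hφ'near, ?_⟩
  intro a b
  have hY : om μ (fun h => z (h * a) * φ (h * a * b)) = φ' b := by
    have h1 := om_inv μ (F := fun h => z h * φ (h * b)) (hbd _ _) a
    have h2 : (fun h => z (a * h) * φ (a * h * b)) = fun h => z (h * a) * φ (h * a * b) := by
      funext h
      rw [mul_comm a h]
    rw [h2] at h1
    exact h1
  have hXY : ∀ h, (z h * φ (h * a)) * (z (h * a) * φ (h * a * b)) = z h * φ (h * (a * b)) := by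
    intro h
    calc (z h * φ (h * a)) * (z (h * a) * φ (h * a * b)) =
          z h * (φ (h * a) * z (h * a)) * φ (h * a * b) := by noncomm_ring
      _ = z h * φ (h * (a * b)) := by rw [hz2, mul_one, mul_assoc h a b]
  have hexp : om μ (fun h => (z h * φ (h * a) - φ' a) * (z (h * a) * φ (h * a * b) - φ' b)) =
      φ' (a * b) - φ' a * φ' b := by
    have e : (fun h => (z h * φ (h * a) - φ' a) * (z (h * a) * φ (h * a * b) - φ' b)) =
        fun h => (z h * φ (h * (a * b)) - φ' a * (z (h * a) * φ (h * a * b))) -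
          (z h * φ (h * a) * φ' b - φ' a * φ' b) := by
      funext h
      rw [← hXY h]
      noncomm_ring
    have b1 : BdO (fun h => z h * φ (h * (a * b))) := hbd _ _
    have b2 : BdO (fun h => φ' a * (z (h * a) * φ (h * a * b))) := (hbd _ _).mul_left _
    have b3 : BdO (fun h => z h * φ (h * a) * φ' b) := (hbd _ _).mul_right _
    have b4 : BdO (fun _ : G => φ' a * φ' b) := ⟨_, fun _ => le_rfl⟩
    have b12 : BdO (fun h => z h * φ (h * (a * b)) - φ' a * (z (h * a) * φ (h * a * b))) := by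
      obtain ⟨C, hC⟩ := b1
      obtain ⟨C', hC'⟩ := b2
      exact ⟨C + C', fun h => (norm_sub_le _ _).trans (add_le_add (hC h) (hC' h))⟩
    have b34 : BdO (fun h => z h * φ (h * a) * φ' b - φ' a * φ' b) := by
      obtain ⟨C, hC⟩ := b3
      obtain ⟨C', hC'⟩ := b4
      exact ⟨C + C', fun h => (norm_sub_le _ _).trans (add_le_add (hC h) (hC' h))⟩
    rw [e, om_sub μ b12 b34, om_sub μ b1 b2, om_sub μ b3 b4, om_mul_left μ (hbd _ _),
      om_mul_right μ (hbd _ _), om_const, hY]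
    show φ' (a * b) - φ' a * φ' b - (φ' a * φ' b - φ' a * φ' b) = _
    noncomm_ring
  rw [← norm_neg, neg_sub, ← hexp]
  refine om_bound μ fun h => ?_
  have h1 : ‖z h * φ (h * a) - φ' a‖ ≤ 20 / 9 * d := by
    calc ‖z h * φ (h * a) - φ' a‖ = ‖(z h * φ (h * a) - φ a) + (φ a - φ' a)‖ := by
          rw [sub_add_sub_cancel]
      _ ≤ 10 / 9 * d + 10 / 9 * d := by
        refine (norm_add_le _ _).trans (add_le_add (hX a h) ?_)
        rw [norm_sub_rev]
        exact hφ'near a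
      _ = 20 / 9 * d := by ring
  have h2 : ‖z (h * a) * φ (h * a * b) - φ' b‖ ≤ 20 / 9 * d := by
    calc ‖z (h * a) * φ (h * a * b) - φ' b‖ =
          ‖(z (h * a) * φ (h * a * b) - φ b) + (φ b - φ' b)‖ := by
          rw [sub_add_sub_cancel]
      _ ≤ 10 / 9 * d + 10 / 9 * d := by
        refine (norm_add_le _ _).trans (add_le_add (hX b (h * a)) ?_)
        rw [norm_sub_rev]
        exact hφ'near b
      _ = 20 / 9 * d := by ring
  calc _ ≤ ‖z h * φ (h * a) - φ' a‖ * ‖z (h * a) * φ (h * a * b) - φ' b‖ := norm_mul_le _ _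
    _ ≤ (20 / 9 * d) * (20 / 9 * d) := mul_le_mul h1 h2 (norm_nonneg _) (by positivity)
    _ ≤ 5 * d ^ 2 := by nlinarith [sq_nonneg d]

/-- Stability of approximate representations of abelian groups. -/
theorem ulam (μ : CMean G) (N : VonNeumannAlgebra H) (u : G →* unitary (H →L[ℂ] H)) {ε : ℝ}
    (hε : 0 ≤ ε) (hε1 : ε ≤ 1 / 100) (hN : ∀ g, ∃ y ∈ N, ‖y - (u g : H →L[ℂ] H)‖ ≤ ε) :
    ∃ ρ : G → H →L[ℂ] H, (∀ g, ρ g ∈ N) ∧ (∀ g, ‖ρ g - u g‖ ≤ 7 * ε) ∧
      ∀ a b, ρ a * ρ b = ρ (a * b) := by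
  have hu1 : ∀ g, star (u g : H →L[ℂ] H) * (u g : H →L[ℂ] H) = 1 := fun g => (u g).2.1
  let P : ℕ → (G → H →L[ℂ] H) → Prop := fun k φ => (∀ g, φ g ∈ N) ∧
    (∀ g, ‖φ g - u g‖ ≤ 7 * ε - 6 * ε * (1 / 5) ^ k) ∧
    ∀ a b, ‖φ a * φ b - φ (a * b)‖ ≤ 4 * ε * (1 / 5) ^ k
  have h0 : ∃ φ, P 0 φ := by
    choose φ hφN hφ using hN
    refine ⟨φ, hφN, fun g => ?_, fun a b => ?_⟩
    · have := hφ g
      norm_num
      linarith
    · have hab : (u (a * b) : H →L[ℂ] H) = (u a : H →L[ℂ] H) * (u b : H →L[ℂ] H) := by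
        rw [map_mul]; rfl
      have e : φ a * φ b - φ (a * b) = (φ a - u a) * φ b + (u a : H →L[ℂ] H) * (φ b - u b) -
          (φ (a * b) - u (a * b)) := by
        rw [hab]
        noncomm_ring
      have hb : ‖φ b‖ ≤ ε + 1 := by
        calc ‖φ b‖ = ‖(φ b - u b) + (u b : H →L[ℂ] H)‖ := by rw [sub_add_cancel]
          _ ≤ ε + 1 := (norm_add_le _ _).trans (add_le_add (hφ b) (norm_le_one_of_isometry (hu1 b)))
      rw [e, pow_zero, mul_one]
      calc _ ≤ ‖(φ a - u a) * φ b‖ + ‖(u a : H →L[ℂ] H) * (φ b - u b)‖ +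
            ‖φ (a * b) - u (a * b)‖ :=
          (norm_sub_le _ _).trans (add_le_add (norm_add_le _ _) le_rfl)
        _ ≤ ε * (ε + 1) + 1 * ε + ε := by
          refine add_le_add (add_le_add ?_ ?_) (hφ _)
          · exact (norm_mul_le _ _).trans (mul_le_mul (hφ a) hb (norm_nonneg _) hε)
          · exact (norm_mul_le _ _).trans
              (mul_le_mul (norm_le_one_of_isometry (hu1 a)) (hφ b) (norm_nonneg _) zero_le_one)
        _ ≤ 4 * ε := by nlinarith
  have hstep : ∀ k φ, P k φ → ∃ φ', P (k + 1) φ' ∧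
      ∀ g, ‖φ' g - φ g‖ ≤ 40 / 9 * ε * (1 / 5) ^ k := by
    rintro k φ ⟨h1, h2, h3⟩
    have hq0 : (0 : ℝ) < (1 / 5) ^ k := by positivity
    have hq1 : ((1 : ℝ) / 5) ^ k ≤ 1 := pow_le_one₀ (by norm_num) (by norm_num)
    have hr : 7 * ε - 6 * ε * (1 / 5) ^ k ≤ 1 / 10 := by nlinarith
    obtain ⟨φ', h4, h5, h6⟩ := ulam_step μ N u φ hr h1 h2 h3
    refine ⟨φ', ⟨h4, fun g => ?_, fun a b => ?_⟩, fun g => ?_⟩
    · calc ‖φ' g - u g‖ = ‖(φ' g - φ g) + (φ g - u g)‖ := by rw [sub_add_sub_cancel]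
        _ ≤ 10 / 9 * (4 * ε * (1 / 5) ^ k) + (7 * ε - 6 * ε * (1 / 5) ^ k) :=
          (norm_add_le _ _).trans (add_le_add (h5 g) (h2 g))
        _ ≤ 7 * ε - 6 * ε * (1 / 5) ^ (k + 1) := by
          rw [pow_succ]
          have : 0 ≤ ε * (1 / 5) ^ k := by positivity
          nlinarith
    · refine (h6 a b).trans ?_
      rw [pow_succ]
      have h7 : 0 ≤ ε * (1 / 5) ^ k := by positivity
      have h8 : ε * (1 / 5) ^ k ≤ 1 / 100 := by nlinarith
      have h9 : (ε * (1 / 5) ^ k) * (ε * (1 / 5) ^ k) ≤ 1 / 100 * (ε * (1 / 5) ^ k) :=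
        mul_le_mul_of_nonneg_right h8 h7
      calc 5 * (4 * ε * (1 / 5) ^ k) ^ 2 = 80 * ((ε * (1 / 5) ^ k) * (ε * (1 / 5) ^ k)) := by ring
        _ ≤ 80 * (1 / 100 * (ε * (1 / 5) ^ k)) := by linarith
        _ = 4 * ε * ((1 / 5) ^ k * (1 / 5)) := by ring
    · refine (h5 g).trans (le_of_eq ?_)
      ring
  choose! F hF1 hF2 using hstep
  obtain ⟨φ0, hφ0⟩ := h0
  let Φ : ℕ → (G → H →L[ℂ] H) := fun k => Nat.rec φ0 (fun k φ => F k φ) k
  have hΦ : ∀ k, P k (Φ k) := by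
    intro k
    induction k with
    | zero => exact hφ0
    | succ k ih => exact hF1 k _ ih
  have hΦd : ∀ k g, ‖Φ (k + 1) g - Φ k g‖ ≤ 40 / 9 * ε * (1 / 5) ^ k := fun k g =>
    hF2 k _ (hΦ k) g
  have hcau : ∀ g, CauchySeq (fun k => Φ k g) := by
    intro g
    refine cauchySeq_of_le_geometric (1 / 5) (40 / 9 * ε) (by norm_num) fun k => ?_
    rw [dist_eq_norm, norm_sub_rev]
    exact hΦd k g
  choose ρ hρ using fun g => cauchySeq_tendsto_of_complete (hcau g)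
  refine ⟨ρ, fun g => ?_, fun g => ?_, fun a b => ?_⟩
  · exact (isClosed_vn N).mem_of_tendsto (hρ g) (Eventually.of_forall fun k => (hΦ k).1 g)
  · have h1 : Tendsto (fun k => ‖Φ k g - u g‖) atTop (𝓝 ‖ρ g - u g‖) :=
      ((hρ g).sub_const _).norm
    refine le_of_tendsto h1 (Eventually.of_forall fun k => ((hΦ k).2.1 g).trans ?_)
    have : 0 ≤ ε * (1 / 5) ^ k := by positivity
    nlinarith
  · have h1 : Tendsto (fun k => Φ k a * Φ k b - Φ k (a * b)) atTop (𝓝 (ρ a * ρ b - ρ (a * b))) :=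
      ((hρ a).mul (hρ b)).sub (hρ (a * b))
    have h2 : Tendsto (fun k => Φ k a * Φ k b - Φ k (a * b)) atTop (𝓝 0) := by
      refine squeeze_zero_norm (fun k => (hΦ k).2.2 a b) ?_
      have := (tendsto_pow_atTop_nhds_zero_of_lt_one (r := (1 / 5 : ℝ)) (by norm_num)
        (by norm_num)).const_mul (4 * ε)
      simpa using this
    exact sub_eq_zero.1 (tendsto_nhds_unique h1 h2)

end ulam

end Pool.Agent.TH552.CC
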