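import Pool.Agent.TH552.CC.Conj
import Pool.Agent.Helper278.GroupMain

/-!
# Von Neumann algebras: conjugation by unitaries, near inclusions, cyclic projections
-/

set_option autoImplicit false
set_option linter.unusedSectionVars false

open scoped InnerProductSpace ComplexConjugate
open Filter Topology
open Pool.Agent.Helper278

namespace Pool.Agent.TH552.CC

universe u

variable {H : Type u} [NormedAddCommGroup H] [InnerProductSpace ℂ H] [CompleteSpace H]

/-! ### near inclusions -/

/-- every element of the unit ball of `M` is within `ε` of an element of `N` -/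
def Near (M N : VonNeumannAlgebra H) (ε : ℝ) : Prop :=
  ∀ x ∈ M, ‖x‖ ≤ 1 → ∃ y ∈ N, ‖y - x‖ ≤ ε

theorem Near.scaled {M N : VonNeumannAlgebra H} {ε : ℝ} (h : Near M N ε) {x : H →L[ℂ] H}
    (hx : x ∈ M) : ∃ y ∈ N, ‖y - x‖ ≤ ε * ‖x‖ := by
  rcases eq_or_ne x 0 with h0 | h0
  · exact ⟨0, zero_mem _, by simp [h0]⟩
  · have hn : 0 < ‖x‖ := norm_pos_iff.2 h0
    have hn' : (‖x‖ : ℂ) ≠ 0 := by exact_mod_cast hn.ne'
    obtain ⟨y, hy, hyx⟩ := h (((‖x‖⁻¹ : ℝ) : ℂ) • x) (M.toStarSubalgebra.smul_mem hx _) (by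
      rw [norm_smul, Complex.norm_real, norm_inv, norm_norm, inv_mul_cancel₀ hn.ne'])
    refine ⟨(‖x‖ : ℂ) • y, N.toStarSubalgebra.smul_mem hy _, ?_⟩
    have e : (‖x‖ : ℂ) • y - x = (‖x‖ : ℂ) • (y - ((‖x‖⁻¹ : ℝ) : ℂ) • x) := by
      rw [smul_sub, smul_smul, Complex.ofReal_inv, mul_inv_cancel₀ hn', one_smul]
    rw [e, norm_smul, Complex.norm_real, norm_norm, mul_comm]
    exact mul_le_mul_of_nonneg_right hyx (norm_nonneg _)

theorem Near.mono {M N : VonNeumannAlgebra H} {ε ε' : ℝ} (h : Near M N ε) (he : ε ≤ ε') :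
    Near M N ε' := fun x hx hx1 => by
  obtain ⟨y, hy, hyx⟩ := h x hx hx1
  exact ⟨y, hy, hyx.trans he⟩

/-! ### conjugation -/

/-- conjugation by a unitary: `V* N V` -/
def conjSub (N : VonNeumannAlgebra H) (V : H →L[ℂ] H) (h1 : star V * V = 1)
    (h2 : V * star V = 1) : StarSubalgebra ℂ (H →L[ℂ] H) where
  carrier := {x | V * x * star V ∈ N}
  mul_mem' := by
    intro a b ha hb
    have e : V * (a * b) * star V = (V * a * star V) * (V * b * star V) := by
      calc V * (a * b) * star V = V * a * 1 * b * star V := by noncomm_ring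
        _ = V * a * (star V * V) * b * star V := by rw [h1]
        _ = _ := by noncomm_ring
    show V * (a * b) * star V ∈ N
    rw [e]
    exact mul_mem ha hb
  add_mem' := by
    intro a b ha hb
    have e : V * (a + b) * star V = (V * a * star V) + (V * b * star V) := by noncomm_ring
    show V * (a + b) * star V ∈ N
    rw [e]
    exact add_mem ha hb
  algebraMap_mem' := by
    intro c
    show V * (algebraMap ℂ (H →L[ℂ] H) c) * star V ∈ N
    rw [Algebra.algebraMap_eq_smul_one, mul_smul_comm, mul_one, smul_mul_assoc, h2]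
    exact N.toStarSubalgebra.smul_mem (one_mem _) c
  star_mem' := by
    intro a ha
    have e : V * star a * star V = star (V * a * star V) := by
      rw [star_mul, star_mul, star_star, mul_assoc]
    show V * star a * star V ∈ N
    rw [e]
    exact star_mem ha

theorem centralizer_conj {V : H →L[ℂ] H} (h1 : star V * V = 1)
    (h2 : V * star V = 1) (S : Set (H →L[ℂ] H)) :
    Set.centralizer {x | V * x * star V ∈ S} = {x | V * x * star V ∈ Set.centralizer S} := by
  ext x
  constructor
  · intro hx z hz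
    have h3 : star V * z * V ∈ {x | V * x * star V ∈ S} := by
      show V * (star V * z * V) * star V ∈ S
      have : V * (star V * z * V) * star V = z := by
        calc V * (star V * z * V) * star V = (V * star V) * z * (V * star V) := by noncomm_ring
          _ = z := by rw [h2, one_mul, mul_one]
      rwa [this]
    have h4 := hx _ h3
    calc z * (V * x * star V) = (V * star V) * z * V * x * star V := by rw [h2]; noncomm_ring
      _ = V * ((star V * z * V) * x) * star V := by noncomm_ring
      _ = V * (x * (star V * z * V)) * star V := by rw [h4]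
      _ = (V * x * star V) * z * (V * star V) := by noncomm_ring
      _ = (V * x * star V) * z := by rw [h2, mul_one]
  · intro hx y hy
    have h4 : (V * y * star V) * (V * x * star V) = (V * x * star V) * (V * y * star V) :=
      hx _ hy
    have h5 : ∀ a b : H →L[ℂ] H, a * b = star V * ((V * a * star V) * (V * b * star V)) * V := by
      intro a b
      calc a * b = 1 * a * 1 * b * 1 := by noncomm_ring
        _ = (star V * V) * a * (star V * V) * b * (star V * V) := by rw [h1]
        _ = _ := by noncomm_ring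
    rw [h5 y x, h5 x y, h4]

/-- conjugation by a unitary: `V* N V` -/
def cj (N : VonNeumannAlgebra H) (V : H →L[ℂ] H) (h1 : star V * V = 1)
    (h2 : V * star V = 1) : VonNeumannAlgebra H where
  toStarSubalgebra := conjSub N V h1 h2
  centralizer_centralizer' := by
    show Set.centralizer (Set.centralizer {x | V * x * star V ∈ (N : Set (H →L[ℂ] H))}) =
      {x | V * x * star V ∈ (N : Set (H →L[ℂ] H))}
    rw [centralizer_conj h1 h2, centralizer_conj h1 h2, VonNeumannAlgebra.centralizer_centralizer]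

theorem mem_cj {N : VonNeumannAlgebra H} {V : H →L[ℂ] H} {h1 : star V * V = 1}
    {h2 : V * star V = 1} {x : H →L[ℂ] H} : x ∈ cj N V h1 h2 ↔ V * x * star V ∈ N := Iff.rfl

theorem mem_comm_iff {N : VonNeumannAlgebra H} {x : H →L[ℂ] H} :
    x ∈ N.commutant ↔ ∀ y ∈ N, y * x = x * y := VonNeumannAlgebra.mem_commutant_iff

theorem mem_cj_comm {N : VonNeumannAlgebra H} {V : H →L[ℂ] H} {h1 : star V * V = 1}
    {h2 : V * star V = 1} {x : H →L[ℂ] H} :
    x ∈ (cj N V h1 h2).commutant ↔ V * x * star V ∈ N.commutant := by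
  have h3 : x ∈ (cj N V h1 h2).commutant ↔
      x ∈ Set.centralizer {x | V * x * star V ∈ (N : Set (H →L[ℂ] H))} := by
    rw [mem_comm_iff]
    rfl
  rw [h3, centralizer_conj h1 h2, mem_comm_iff]
  rfl

theorem cj_comm {N : VonNeumannAlgebra H} {V : H →L[ℂ] H} {h1 : star V * V = 1}
    {h2 : V * star V = 1} : (cj N V h1 h2).commutant = cj N.commutant V h1 h2 :=
  SetLike.ext fun _ => mem_cj_comm

/-- the conjugated algebra is near the algebra -/
theorem near_cj (N : VonNeumannAlgebra H) {V : H →L[ℂ] H} (h1 : star V * V = 1)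
    (h2 : V * star V = 1) {c : ℝ} (hV : ‖V - 1‖ ≤ c) : Near N (cj N V h1 h2) (2 * c) := by
  intro x hx hx1
  have hVn : ‖V‖ ≤ 1 := norm_le_one_of_isometry h1
  have hVs : ‖star V‖ ≤ 1 := by rw [norm_star]; exact hVn
  have hc : 0 ≤ c := (norm_nonneg _).trans hV
  refine ⟨star V * x * V, ?_, ?_⟩
  · rw [mem_cj]
    have : V * (star V * x * V) * star V = x := by
      calc V * (star V * x * V) * star V = (V * star V) * x * (V * star V) := by noncomm_ring
        _ = x := by rw [h2, one_mul, mul_one]
    rwa [this]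
  · have e : star V * x * V - x = star (V - 1) * x * V + x * (V - 1) := by
      rw [star_sub, star_one]
      noncomm_ring
    rw [e]
    calc _ ≤ ‖star (V - 1) * x * V‖ + ‖x * (V - 1)‖ := norm_add_le _ _
      _ ≤ (c * 1) * 1 + 1 * c := by
        refine add_le_add ?_ ?_
        · refine (norm_mul_le _ _).trans (mul_le_mul ?_ hVn (norm_nonneg _) (by positivity))
          refine (norm_mul_le _ _).trans (mul_le_mul ?_ hx1 (norm_nonneg _) hc)
          rw [norm_star]; exact hV
        · exact (norm_mul_le _ _).trans (mul_le_mul hx1 hV (norm_nonneg _) zero_le_one)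
      _ = 2 * c := by ring

theorem near_cj' (N : VonNeumannAlgebra H) {V : H →L[ℂ] H} (h1 : star V * V = 1)
    (h2 : V * star V = 1) {c : ℝ} (hV : ‖V - 1‖ ≤ c) : Near (cj N V h1 h2) N (2 * c) := by
  intro x hx hx1
  have hVn : ‖V‖ ≤ 1 := norm_le_one_of_isometry h1
  have hVs : ‖star V‖ ≤ 1 := by rw [norm_star]; exact hVn
  have hc : 0 ≤ c := (norm_nonneg _).trans hV
  refine ⟨V * x * star V, hx, ?_⟩
  have e : V * x * star V - x = (V - 1) * x * star V + x * star (V - 1) := by
    rw [star_sub, star_one]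
    noncomm_ring
  rw [e]
  calc _ ≤ ‖(V - 1) * x * star V‖ + ‖x * star (V - 1)‖ := norm_add_le _ _
    _ ≤ (c * 1) * 1 + 1 * c := by
      refine add_le_add ?_ ?_
      · refine (norm_mul_le _ _).trans (mul_le_mul ?_ hVs (norm_nonneg _) (by positivity))
        exact (norm_mul_le _ _).trans (mul_le_mul hV hx1 (norm_nonneg _) hc)
      · refine (norm_mul_le _ _).trans (mul_le_mul hx1 ?_ (norm_nonneg _) zero_le_one)
        rw [norm_star]; exact hV
    _ = 2 * c := by ring

theorem Near.trans {M N P : VonNeumannAlgebra H} {a b : ℝ} (h : Near M N a) (h' : Near N P b)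
    (hb : 0 ≤ b) : Near M P (a + b * (1 + a)) := by
  intro x hx hx1
  obtain ⟨y, hy, hyx⟩ := h x hx hx1
  obtain ⟨z, hz, hzy⟩ := h'.scaled hy
  refine ⟨z, hz, ?_⟩
  have hyn : ‖y‖ ≤ 1 + a := by
    calc ‖y‖ = ‖x + (y - x)‖ := by rw [add_sub_cancel]
      _ ≤ 1 + a := (norm_add_le _ _).trans (add_le_add hx1 hyx)
  calc ‖z - x‖ = ‖(y - x) + (z - y)‖ := by congr 1; abel
    _ ≤ a + b * (1 + a) := by
      refine (norm_add_le _ _).trans (add_le_add hyx (hzy.trans ?_))
      exact mul_le_mul_of_nonneg_left hyn hb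

/-! ### traces on conjugated algebras -/

theorem conj_state {P N0 : VonNeumannAlgebra H} {V : H →L[ℂ] H} (h1 : star V * V = 1)
    (h2 : V * star V = 1) (h : ∀ x, x ∈ P ↔ V * x * star V ∈ N0) (T0 : TracialState N0) :
    ∃ T : TracialState P, ∀ x (hx : x ∈ P), T.τ ⟨x, hx⟩ = T0.τ ⟨V * x * star V, (h x).1 hx⟩ := by
  obtain ⟨ξ, hξ, hT⟩ := T0.normal
  have hmul : ∀ a b : H →L[ℂ] H, V * (a * b) * star V = (V * a * star V) * (V * b * star V) := by
    intro a b
    calc V * (a * b) * star V = V * a * 1 * b * star V := by noncomm_ring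
      _ = V * a * (star V * V) * b * star V := by rw [h1]
      _ = _ := by noncomm_ring
  have hVn : ‖V‖ ≤ 1 := norm_le_one_of_isometry h1
  have hVs : ‖star V‖ ≤ 1 := by rw [norm_star]; exact hVn
  let f : Elt P → Elt N0 := fun x => ⟨V * (x : H →L[ℂ] H) * star V, (h x).1 x.2⟩
  have fmul : ∀ x y : Elt P, f (x * y) = f x * f y := fun x y =>
    Subtype.ext (hmul (x : H →L[ℂ] H) (y : H →L[ℂ] H))
  have fstar : ∀ x : Elt P, f (star x) = star (f x) := by
    intro x
    apply Subtype.ext
    show V * star (x : H →L[ℂ] H) * star V = star (V * (x : H →L[ℂ] H) * star V)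
    rw [star_mul, star_mul, star_star, mul_assoc]
  have fone : f 1 = 1 := by
    apply Subtype.ext
    show V * (1 : H →L[ℂ] H) * star V = 1
    rw [mul_one, h2]
  refine ⟨{ τ := { toFun := fun x => T0.τ (f x), map_add' := ?_, map_smul' := ?_ },
            normal := ?_, map_one := ?_, tracial := ?_, faithful := ?_ }, ?_⟩
  · intro x y
    have : f (x + y) = f x + f y := by
      apply Subtype.ext
      show V * ((x : H →L[ℂ] H) + (y : H →L[ℂ] H)) * star V =
        V * (x : H →L[ℂ] H) * star V + V * (y : H →L[ℂ] H) * star V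
      noncomm_ring
    rw [this, map_add]
  · intro c x
    have : f (c • x) = c • f x := by
      apply Subtype.ext
      show V * (c • (x : H →L[ℂ] H)) * star V = c • (V * (x : H →L[ℂ] H) * star V)
      rw [mul_smul_comm, smul_mul_assoc]
    rw [this, map_smul]
    rfl
  · refine ⟨fun k => star V (ξ k), summable_norm_apply ξ hξ _, fun x => ?_⟩
    show T0.τ (f x) = _
    rw [hT]
    congr 1
    funext k
    show ⟪ξ k, V ((x : H →L[ℂ] H) (star V (ξ k)))⟫_ℂ = _
    rw [ContinuousLinearMap.star_eq_adjoint, ContinuousLinearMap.adjoint_inner_left]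
  · show T0.τ (f 1) = 1
    rw [fone, T0.map_one]
  · intro x y
    show T0.τ (f (x * y)) = T0.τ (f (y * x))
    rw [fmul, fmul, T0.tracial]
  · intro x hx
    have h3 : T0.τ (f (star x * x)) = 0 := hx
    rw [fmul, fstar] at h3
    have h4 := T0.faithful _ h3
    have h5 : V * (x : H →L[ℂ] H) * star V = 0 := congrArg Subtype.val h4
    apply Subtype.ext
    show (x : H →L[ℂ] H) = 0
    calc (x : H →L[ℂ] H) = (star V * V) * x * (star V * V) := by rw [h1, one_mul, mul_one]
      _ = star V * (V * x * star V) * V := by noncomm_ring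
      _ = 0 := by rw [h5, mul_zero, zero_mul]
  · intro x hx
    rfl

/-! ### cyclic projections -/

/-- the closed linear span of `{x ξ : x ∈ M}` -/
noncomputable def orb (M : VonNeumannAlgebra H) (ξ : H) : Submodule ℂ H :=
  (Submodule.span ℂ {v | ∃ x ∈ M, v = x ξ}).topologicalClosure

theorem isClosed_orb (M : VonNeumannAlgebra H) (ξ : H) : IsClosed (orb M ξ : Set H) :=
  Submodule.isClosed_topologicalClosure _

instance (M : VonNeumannAlgebra H) (ξ : H) : CompleteSpace (orb M ξ) :=
  (isClosed_orb M ξ).completeSpace_coe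

/-- the projection onto the closed linear span of `{x ξ : x ∈ M}` -/
noncomputable def cyc (M : VonNeumannAlgebra H) (ξ : H) : H →L[ℂ] H := (orb M ξ).starProjection

theorem apply_mem_orb {M : VonNeumannAlgebra H} {ξ : H} {x : H →L[ℂ] H} (hx : x ∈ M) :
    x ξ ∈ orb M ξ :=
  Submodule.le_topologicalClosure _ (Submodule.subset_span ⟨x, hx, rfl⟩)

/-- an operator maps the cyclic space into a closed subspace once it does so on the orbit -/
theorem map_orb {M : VonNeumannAlgebra H} {ξ : H} {K : Submodule ℂ H} (hK : IsClosed (K : Set H))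
    {t : H →L[ℂ] H} (ht : ∀ x ∈ M, t (x ξ) ∈ K) : ∀ v ∈ orb M ξ, t v ∈ K := by
  have h1 : Submodule.span ℂ {v | ∃ x ∈ M, v = x ξ} ≤ K.comap (t : H →ₗ[ℂ] H) := by
    rw [Submodule.span_le]
    rintro v ⟨x, hx, rfl⟩
    exact ht x hx
  have h2 : IsClosed ((K.comap (t : H →ₗ[ℂ] H) : Submodule ℂ H) : Set H) :=
    hK.preimage t.continuous
  exact fun v hv => Submodule.topologicalClosure_minimal _ h1 h2 hv

theorem mem_orb_self {M : VonNeumannAlgebra H} {ξ : H} : ξ ∈ orb M ξ :=
  apply_mem_orb (M := M) (x := 1) (one_mem _)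

theorem cyc_apply_of_mem {M : VonNeumannAlgebra H} {ξ v : H} (hv : v ∈ orb M ξ) :
    cyc M ξ v = v := Submodule.starProjection_eq_self_iff.2 hv

theorem cyc_mul_self (M : VonNeumannAlgebra H) (ξ : H) : cyc M ξ * cyc M ξ = cyc M ξ := by
  ext v
  exact cyc_apply_of_mem ((orb M ξ).starProjection_apply_mem v)

theorem star_cyc (M : VonNeumannAlgebra H) (ξ : H) : star (cyc M ξ) = cyc M ξ :=
  (isSelfAdjoint_starProjection (orb M ξ)).star_eq

theorem orb_invariant {M : VonNeumannAlgebra H} {ξ : H} {t : H →L[ℂ] H} (ht : t ∈ M) :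
    ∀ v ∈ orb M ξ, t v ∈ orb M ξ :=
  map_orb (isClosed_orb M ξ) fun _ hx => apply_mem_orb (mul_mem ht hx)

theorem cyc_mem (M : VonNeumannAlgebra H) (ξ : H) : cyc M ξ ∈ M.commutant := by
  rw [mem_comm_iff]
  intro y hy
  exact (commute_starProjection _ y (orb_invariant hy) (orb_invariant (star_mem hy))).symm

theorem cyc_comm_mem (M : VonNeumannAlgebra H) (ξ : H) : cyc M.commutant ξ ∈ M := by
  have := cyc_mem M.commutant ξ
  rwa [VonNeumannAlgebra.commutant_commutant] at this

/-- a projection of the commutant fixing `ξ` dominates the cyclic projection -/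
theorem mul_cyc {M : VonNeumannAlgebra H} {ξ : H} {p : H →L[ℂ] H} (hp : p ∈ M.commutant)
    (hpξ : p ξ = ξ) : p * cyc M ξ = cyc M ξ := by
  have hK : ∀ v ∈ orb M ξ, (p - 1) v ∈ (⊥ : Submodule ℂ H) := by
    refine map_orb (by simp) fun x hx => ?_
    have h1 : p (x ξ) = x (p ξ) := by
      have := mem_comm_iff.1 hp x hx
      have := congrArg (fun t : H →L[ℂ] H => t ξ) this
      exact this.symm
    show p (x ξ) - x ξ ∈ (⊥ : Submodule ℂ H)
    rw [h1, hpξ, sub_self]
    exact zero_mem _
  ext v
  have h2 := hK _ ((orb M ξ).starProjection_apply_mem v)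
  rw [Submodule.mem_bot] at h2
  exact sub_eq_zero.1 h2

theorem cyc_apply_self (M : VonNeumannAlgebra H) (ξ : H) : cyc M ξ ξ = ξ :=
  cyc_apply_of_mem mem_orb_self

theorem cyc_ne_zero (M : VonNeumannAlgebra H) {ξ : H} (hξ : ξ ≠ 0) : cyc M ξ ≠ 0 := by
  intro h
  have := cyc_apply_self M ξ
  rw [h] at this
  exact hξ this.symm

/-- cyclic projections under conjugation -/
theorem cyc_conj {N P : VonNeumannAlgebra H} {V : H →L[ℂ] H} (h1 : star V * V = 1)
    (h2 : V * star V = 1) (h : ∀ x, x ∈ P ↔ V * x * star V ∈ N) (ξ : H) :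
    V * cyc P ξ * star V = cyc N (V ξ) := by
  have hVs : ∀ v, star V (V v) = v := fun v => congrArg (fun t : H →L[ℂ] H => t v) h1
  have hVs' : ∀ v, V (star V v) = v := fun v => congrArg (fun t : H →L[ℂ] H => t v) h2
  have hA : ∀ v ∈ orb P ξ, V v ∈ orb N (V ξ) := by
    refine map_orb (isClosed_orb _ _) fun x hx => ?_
    have e : V (x ξ) = (V * x * star V) (V ξ) := by
      show V (x ξ) = V (x (star V (V ξ)))
      rw [hVs]
    rw [e]
    exact apply_mem_orb ((h x).1 hx)
  have hB : ∀ v ∈ orb N (V ξ), star V v ∈ orb P ξ := by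
    refine map_orb (isClosed_orb _ _) fun x hx => ?_
    have e : star V (x (V ξ)) = (star V * x * V) ξ := rfl
    rw [e]
    refine apply_mem_orb ((h _).2 ?_)
    have : V * (star V * x * V) * star V = x := by
      calc V * (star V * x * V) * star V = (V * star V) * x * (V * star V) := by noncomm_ring
        _ = x := by rw [h2, one_mul, mul_one]
    rwa [this]
  ext v
  show V (cyc P ξ (star V v)) = cyc N (V ξ) v
  refine (Submodule.eq_starProjection_of_mem_of_inner_eq_zero
    (hA _ ((orb P ξ).starProjection_apply_mem _)) fun w hw => ?_).symm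
  have h3 := (orb P ξ).starProjection_inner_eq_zero (star V v) (star V w) (hB w hw)
  have h4 : v - V ((orb P ξ).starProjection (star V v)) =
      V (star V v - (orb P ξ).starProjection (star V v)) := by
    rw [map_sub, hVs']
  rw [h4, ← ContinuousLinearMap.adjoint_inner_right, ← ContinuousLinearMap.star_eq_adjoint]
  exact h3

end Pool.Agent.TH552.CC
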